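import Mathlib
import Pool.Agent.Lib.MP_8f66f0_al_Wald.Defs
import Pool.Agent.Lib.MP_8f66f0_al_Wald.GrDefs

/-! Definitions for the index homomorphism `K_1(T((y))) → K_0(T)` and for Whitehead groups with
coefficients in a Euclidean domain. -/

set_option autoImplicit false

namespace Pool.Agent.Ind

open Pool.Agent.Wald

/-- Finitely generated projective modules. -/
def FGP (T M : Type) [Ring T] [AddCommGroup M] [Module T M] : Prop :=
  Module.Finite T M ∧ Module.Projective T M

/-- The reduced projective class group, as an abelian group with a class for every module (only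
the classes of finitely generated projective modules matter). -/
structure K0Data (T : Type) [Ring T] where
  K : Type
  [grp : CommGroup K]
  cls : ∀ (M : Type) [AddCommGroup M] [Module T M], K
  cls_prod : ∀ (M N : Type) [AddCommGroup M] [Module T M] [AddCommGroup N] [Module T N],
    FGP T M → FGP T N → cls (M × N) = cls M * cls N
  cls_iso : ∀ (M N : Type) [AddCommGroup M] [Module T M] [AddCommGroup N] [Module T N],
    FGP T M → (M ≃ₗ[T] N) → cls M = cls N
  cls_free : ∀ a : ℕ, cls (Fin a → T) = 1
  cls_one : ∀ (M : Type) [AddCommGroup M] [Module T M], FGP T M → cls M = 1 →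
    ∃ a b : ℕ, Nonempty ((M × (Fin a → T)) ≃ₗ[T] (Fin b → T))

attribute [instance] K0Data.grp

section Rel

variable {T V : Type} [Ring T] [AddCommGroup V] [Module T V]

/-- `Y ≤ X` and `X / Y` is finitely generated projective. -/
def FPq (X Y : Submodule T V) : Prop := Y ≤ X ∧ FGP T (X ⧸ Y.submoduleOf X)

/-- The class of `X / Y`. -/
def K0Data.ind (D : K0Data T) (X Y : Submodule T V) : D.K := D.cls (X ⧸ Y.submoduleOf X)

end Rel

/-- A ring `Q` over `T` with a subring `P`, a central unit `y` of `Q` in `P` such that `Q` is the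
union of the `P y⁻ᵐ`, `P / P y = T` and `Q / P` is projective over `T`. The example is
`Q = T((y))`, `P = T[[y]]`. -/
structure Val (T Q : Type) [Ring T] [Ring Q] [Module T Q] [IsScalarTower T Q Q] where
  P : Submodule T Q
  y : Q
  yi : Q
  one_mem : (1 : Q) ∈ P
  mul_mem : ∀ a ∈ P, ∀ b ∈ P, a * b ∈ P
  y_mem : y ∈ P
  y_yi : y * yi = 1
  yi_y : yi * y = 1
  y_comm : ∀ q, y * q = q * y
  exh : ∀ q, ∃ m : ℕ, q * y ^ m ∈ P
  ev : Q →ₗ[T] T
  ev_one : ev 1 = 1
  ev_mul : ∀ a ∈ P, ∀ b ∈ P, ev (a * b) = ev a * ev b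
  ev_y : ev y = 0
  ev_ker : ∀ a ∈ P, ev a = 0 → ∃ b ∈ P, a = b * y
  proj : Module.Projective T (Q ⧸ P)

section Bd

variable {T Q : Type} [Ring T] [Ring Q] [Module T Q] [IsScalarTower T Q Q]

/-- The lattice `P^n` in `Q^n`. -/
def Val.F (v : Val T Q) (n : Type) : Submodule T (n → Q) := Submodule.pi Set.univ fun _ => v.P

/-- Right multiplication by a matrix on row vectors is linear over `T`. -/
def rmul (T : Type) {Q : Type} [Ring T] [Ring Q] [Module T Q] [IsScalarTower T Q Q] {n m : Type}
    [Fintype n] (A : Matrix n m Q) : (n → Q) →ₗ[T] (m → Q) where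
  toFun x := Matrix.vecMul x A
  map_add' x x' := Matrix.add_vecMul A x x'
  map_smul' c x := by
    ext j
    simp only [Matrix.vecMul, dotProduct, Pi.smul_apply, RingHom.id_apply, Finset.smul_sum,
      smul_mul_assoc]

/-- The image of the lattice under `A y^m`. -/
def Val.L (v : Val T Q) {n : Type} [Fintype n] (A : Matrix n n Q) (m : ℕ) :
    Submodule T (n → Q) :=
  (v.F n).map (rmul T (A.map fun q => q * v.y ^ m))

/-- The matrix over `Q` of a matrix over `T`. -/
def up (T Q : Type) [Ring T] [Ring Q] [Module T Q] {n m : Type} (p : Matrix n m T) :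
    Matrix n m Q := p.map fun t => t • (1 : Q)

end Bd

instance instTowerLaurent (T : Type) [Ring T] :
    IsScalarTower T (LaurentSeries T) (LaurentSeries T) :=
  ⟨fun c f g => by
    change (c • f) * g = c • (f * g)
    rw [← HahnSeries.C_mul_eq_smul, ← HahnSeries.C_mul_eq_smul, mul_assoc]⟩

/-- Euclidean domains, as a property. -/
def IsEuc (L : Type) [CommRing L] : Prop :=
  ∃ N : L → ℕ, ∀ a b : L, b ≠ 0 → ∃ q r : L, a = q * b + r ∧ (r = 0 ∨ N r < N b)

/-- `K_1(LG)` is generated by the units of `L` and the elements of `G`. For `L = ℤ` this is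
`Wh(G) = 0`. -/
def WhTL (L G : Type) [CommRing L] [Group G] : Prop :=
  ∀ (K : Type) [CommGroup K] (κ : K1Fun (MonoidAlgebra L G) K),
    (∀ (g : G) (u : Lˣ),
      κ.f (Matrix.of fun _ _ : Fin 1 => (MonoidAlgebra.single g (u : L))) = 1) →
    ∀ (n : Type) [Fintype n] [DecidableEq n] (A : Matrix n n (MonoidAlgebra L G)), IsUnit A →
      κ.f A = 1

end Pool.Agent.Ind
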