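import Pool.Agent.Lib.MP_8f66f0_al_Ind.Defs

/-! Euclidean domains: principal ideals, the integers, Laurent series. -/

set_option autoImplicit false

namespace Pool.Agent.Ind

open Pool.Agent.Wald Matrix

theorem isPrincipal_of_isEuc {L : Type} [CommRing L] [IsDomain L] (h : IsEuc L) :
    IsPrincipalIdealRing L := by
  classical
  obtain ⟨N, hN⟩ := h
  refine ⟨fun I => ?_⟩
  by_cases hI : I = ⊥
  · rw [hI]
    exact bot_isPrincipal
  · obtain ⟨b0, hb0, hb0'⟩ := Submodule.exists_mem_ne_zero_of_ne_bot hI
    have hex : ∃ n : ℕ, ∃ b ∈ I, b ≠ 0 ∧ N b = n := ⟨N b0, b0, hb0, hb0', rfl⟩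
    obtain ⟨b, hb, hb', hbn⟩ := Nat.find_spec hex
    refine ⟨⟨b, ?_⟩⟩
    apply le_antisymm
    · intro a ha
      obtain ⟨q, r, hqr, hr⟩ := hN a b hb'
      have hrI : r ∈ I := by
        have h1 : r = a - q * b := by rw [hqr]; ring
        rw [h1]
        exact I.sub_mem ha (I.mul_mem_left q hb)
      have hr0 : r = 0 := by
        by_contra hne
        rcases hr with h | h
        · exact hne h
        · have h2 := Nat.find_min' hex ⟨r, hrI, hne, rfl⟩
          omega
      rw [hqr, hr0, add_zero]
      exact Submodule.mem_span_singleton.2 ⟨q, rfl⟩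
    · rw [Submodule.span_singleton_le_iff_mem]
      exact hb

theorem isEuc_int : IsEuc ℤ := by
  refine ⟨Int.natAbs, fun a b hb => ⟨a / b, a % b, ?_, Or.inr ?_⟩⟩
  · rw [mul_comm]
    exact (Int.mul_ediv_add_emod a b).symm
  · have h1 := Int.emod_nonneg a hb
    have h2 := Int.emod_lt_abs a hb
    rw [Int.abs_eq_natAbs] at h2
    omega

section Laur

variable {L : Type} [CommRing L]

/-- The coefficients of a product below the sum of the orders vanish. -/
private theorem euc_mul_low {x b : LaurentSeries L} {u j : ℤ} (hx : ∀ m < u, x.coeff m = 0)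
    (hb : ∀ m < j, b.coeff m = 0) : ∀ m < u + j, (x * b).coeff m = 0 := by
  intro m hm
  rw [HahnSeries.coeff_mul]
  apply Finset.sum_eq_zero
  intro ij hij
  rw [Finset.mem_antidiagonal] at hij
  by_cases h : ij.1 < u
  · rw [hx _ h, zero_mul]
  · rw [hb ij.2 (by omega), mul_zero]

private theorem euc_single_mul (u : ℤ) (c : L) (b : LaurentSeries L) (m : ℤ) :
    (HahnSeries.single u c * b).coeff m = c * b.coeff (m - u) := by
  have h := HahnSeries.coeff_single_mul_add (r := c) (x := b) (a := m - u) (b := u)
  rwa [sub_add_cancel] at h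

/-- The order from the coefficients. -/
private theorem euc_order {x : LaurentSeries L} {m : ℤ} (hl : ∀ i < m, x.coeff i = 0)
    (hm : x.coeff m ≠ 0) : x.order = m := by
  apply le_antisymm (HahnSeries.order_le_of_coeff_ne_zero hm)
  by_contra hlt
  push Not at hlt
  have h0 : x ≠ 0 := by
    rintro rfl
    exact hm (HahnSeries.coeff_zero ..)
  exact h0 (HahnSeries.coeff_order_eq_zero.1 (hl _ hlt))

open Classical in
/-- A quotient in `L` if there is one. -/
private noncomputable def eucDiv (x β : L) : L := if h : β ∣ x then h.choose else 0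

private theorem eucDiv_spec {x β : L} (h : β ∣ x) : x = β * eucDiv x β := by
  unfold eucDiv
  rw [dif_pos h]
  exact h.choose_spec

/-- The finite quotients. -/
private noncomputable def eucQ (a b : LaurentSeries L) (k j : ℤ) (β : L) : ℕ → LaurentSeries L
  | 0 => 0
  | n + 1 => eucQ a b k j β n + HahnSeries.single (k - j + n)
      (eucDiv ((a - eucQ a b k j β n * b).coeff (k + n)) β)

/-- The coefficients of the quotient. -/
private noncomputable def eucC (a b : LaurentSeries L) (k j : ℤ) (β : L) (n : ℕ) : L :=
  eucDiv ((a - eucQ a b k j β n * b).coeff (k + n)) β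

private theorem eucQ_coeff (a b : LaurentSeries L) (k j : ℤ) (β : L) (n : ℕ) (m : ℤ) :
    (eucQ a b k j β n).coeff m =
      if k - j ≤ m ∧ m < k - j + n then eucC a b k j β (m - (k - j)).toNat else 0 := by
  induction n with
  | zero =>
    rw [if_neg (by push_cast; omega)]
    exact HahnSeries.coeff_zero ..
  | succ n ih =>
    change (eucQ a b k j β n + HahnSeries.single (k - j + n) (eucC a b k j β n)).coeff m = _
    rw [HahnSeries.coeff_add, ih, HahnSeries.coeff_single]
    by_cases h1 : m = k - j + n
    · rw [if_pos h1, if_neg (by omega), if_pos (by push_cast; omega), zero_add]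
      congr 1
      omega
    · rw [if_neg h1, add_zero]
      by_cases h2 : k - j ≤ m ∧ m < k - j + n
      · rw [if_pos h2, if_pos (by push_cast; omega)]
      · rw [if_neg h2, if_neg (by push_cast; omega)]

end Laur

theorem isEuc_laurent {L : Type} [CommRing L] [IsDomain L] (h : IsEuc L) :
    IsEuc (LaurentSeries L) := by
  obtain ⟨N, hN⟩ := h
  refine ⟨fun f => N (f.coeff f.order), fun a b hb => ?_⟩
  by_contra hcon
  push Not at hcon
  -- every remainder is nonzero of large norm
  have hst : ∀ q : LaurentSeries L, a - q * b ≠ 0 ∧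
      N (b.coeff b.order) ≤ N ((a - q * b).coeff (a - q * b).order) := by
    intro q
    exact hcon q (a - q * b) (by ring)
  set j : ℤ := b.order with hj
  set β : L := b.coeff j with hβ
  have hβ0 : β ≠ 0 := fun h => hb (HahnSeries.coeff_order_eq_zero.1 h)
  have hbl : ∀ m < j, b.coeff m = 0 := fun m hm => HahnSeries.coeff_eq_zero_of_lt_order hm
  -- divisibility of leading coefficients
  have hdiv : ∀ q : LaurentSeries L, β ∣ (a - q * b).coeff (a - q * b).order := by
    intro q
    set r : LaurentSeries L := a - q * b with hr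
    set m : ℤ := r.order with hm
    obtain ⟨q0, r0, hqr, hr0⟩ := hN (r.coeff m) β hβ0
    by_cases hz : r0 = 0
    · exact ⟨q0, by rw [hqr, hz, add_zero, mul_comm]⟩
    exfalso
    have hlt : N r0 < N β := by
      rcases hr0 with h | h
      · exact absurd h hz
      · exact h
    set q' : LaurentSeries L := q + HahnSeries.single (m - j) q0 with hq'
    have e1 : ∀ i, (a - q' * b).coeff i = r.coeff i - q0 * b.coeff (i - (m - j)) := by
      intro i
      have e2 : a - q' * b = r - HahnSeries.single (m - j) q0 * b := by
        rw [hq', hr]; ring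
      rw [e2, HahnSeries.coeff_sub, euc_single_mul]
    have e3 : (a - q' * b).coeff m = r0 := by
      rw [e1 m, show m - (m - j) = j by ring, ← hβ, hqr]
      ring
    have e4 : ∀ i < m, (a - q' * b).coeff i = 0 := by
      intro i hi
      rw [e1 i, HahnSeries.coeff_eq_zero_of_lt_order (x := r) hi, hbl _ (by omega), mul_zero,
        sub_zero]
    have e5 : (a - q' * b).order = m := euc_order e4 (by rw [e3]; exact hz)
    have e6 := (hst q').2
    rw [e5, e3] at e6
    omega
  set k : ℤ := a.order with hk
  have hal : ∀ m < k, a.coeff m = 0 := fun m hm => HahnSeries.coeff_eq_zero_of_lt_order hm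
  -- the successive remainders
  have hlow : ∀ n : ℕ, ∀ m < k + n, (a - eucQ a b k j β n * b).coeff m = 0 := by
    intro n
    induction n with
    | zero =>
      intro m hm
      have e1 : a - eucQ a b k j β 0 * b = a := by
        change a - 0 * b = a
        rw [zero_mul, sub_zero]
      rw [e1]
      exact hal m (by push_cast at hm; omega)
    | succ n ih =>
      intro m hm
      have hd : β ∣ (a - eucQ a b k j β n * b).coeff (k + n) := by
        set r : LaurentSeries L := a - eucQ a b k j β n * b with hr
        have h1 : k + n ≤ r.order := by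
          by_contra hlt
          push Not at hlt
          exact (hst (eucQ a b k j β n)).1 (HahnSeries.coeff_order_eq_zero.1 (ih _ hlt))
        rcases h1.lt_or_eq with h2 | h2
        · rw [HahnSeries.coeff_eq_zero_of_lt_order h2]
          exact dvd_zero _
        · rw [h2]
          exact hdiv _
      have e2 : a - eucQ a b k j β (n + 1) * b = (a - eucQ a b k j β n * b) -
          HahnSeries.single (k - j + n) (eucC a b k j β n) * b := by
        change a - (eucQ a b k j β n + HahnSeries.single (k - j + n) (eucC a b k j β n)) * b = _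
        ring
      rw [e2, HahnSeries.coeff_sub, euc_single_mul]
      by_cases hmn : m = k + n
      · have e3 : m - (k - j + n) = j := by omega
        rw [e3, hmn, ← hβ]
        have e4 := eucDiv_spec hd
        change (a - eucQ a b k j β n * b).coeff (k + n) -
          eucDiv ((a - eucQ a b k j β n * b).coeff (k + n)) β * β = 0
        rw [mul_comm (eucDiv _ β) β, ← e4, sub_self]
      · push_cast at hm
        rw [ih m (by omega), hbl _ (by omega), mul_zero, sub_zero]
  -- the limit
  have hsupp : BddBelow (Function.support fun m : ℤ =>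
      if k - j ≤ m then eucC a b k j β (m - (k - j)).toNat else 0) := by
    refine ⟨k - j, fun m hm => ?_⟩
    by_contra hlt
    apply hm
    simp only
    rw [if_neg hlt]
  set Q : LaurentSeries L := HahnSeries.ofSuppBddBelow _ hsupp with hQ
  have hQc : ∀ m, Q.coeff m = if k - j ≤ m then eucC a b k j β (m - (k - j)).toNat else 0 :=
    fun m => rfl
  have hzero : a - Q * b = 0 := by
    apply HahnSeries.ext
    funext m
    obtain ⟨n, hn⟩ : ∃ n : ℕ, m < k + n := ⟨(m - k + 1).toNat, by omega⟩
    have e1 : a - Q * b = (a - eucQ a b k j β n * b) - (Q - eucQ a b k j β n) * b := by ring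
    have e2 : ∀ i < k - j + n, (Q - eucQ a b k j β n).coeff i = 0 := by
      intro i hi
      rw [HahnSeries.coeff_sub, hQc, eucQ_coeff]
      by_cases h1 : k - j ≤ i
      · rw [if_pos h1, if_pos ⟨h1, hi⟩, sub_self]
      · rw [if_neg h1, if_neg (fun h => h1 h.1), sub_self]
    rw [e1, HahnSeries.coeff_sub, hlow n m hn, euc_mul_low e2 hbl m (by omega), sub_zero]
    rfl
  exact (hst Q).1 hzero

end Pool.Agent.Ind
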