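import Pool.Agent.Lib.MP_8f66f0_al_Ind.Defs

/-! The ring homomorphism from the group ring of the Laurent series to the Laurent series over the
group ring. -/

set_option autoImplicit false

namespace Pool.Agent.Ind

open Pool.Agent.Wald Matrix

/-- The Laurent series with coefficients embedded in the group ring. -/
private noncomputable def laurMap (L G : Type) [CommRing L] [Group G] :
    LaurentSeries L →+* LaurentSeries (MonoidAlgebra L G) where
  toFun x := x.map (MonoidAlgebra.singleOneRingHom : L →+* MonoidAlgebra L G)
  map_one' := by
    apply HahnSeries.ext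
    funext k
    rw [HahnSeries.map_coeff, HahnSeries.coeff_one, HahnSeries.coeff_one]
    split_ifs
    · exact map_one _
    · exact map_zero _
  map_mul' x y :=
    HahnSeries.map_mul
      ((MonoidAlgebra.singleOneRingHom : L →+* MonoidAlgebra L G) : L →ₙ+* MonoidAlgebra L G)
  map_zero' := by
    apply HahnSeries.ext
    funext k
    rw [HahnSeries.map_coeff, HahnSeries.coeff_zero, HahnSeries.coeff_zero, map_zero]
  map_add' x y := by
    apply HahnSeries.ext
    funext k
    rw [HahnSeries.map_coeff, HahnSeries.coeff_add, HahnSeries.coeff_add, HahnSeries.map_coeff,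
      HahnSeries.map_coeff, map_add]

private theorem laurMap_coeff (L G : Type) [CommRing L] [Group G] (x : LaurentSeries L) (k : ℤ) :
    (laurMap L G x).coeff k = MonoidAlgebra.single 1 (x.coeff k) := by
  change (HahnSeries.map x (MonoidAlgebra.singleOneRingHom : L →+* MonoidAlgebra L G)).coeff k = _
  rw [HahnSeries.map_coeff]
  rfl

private theorem laurMap_comm (L G : Type) [CommRing L] [Group G] (x : LaurentSeries L) (g : G) :
    Commute (laurMap L G x) (HahnSeries.C (MonoidAlgebra.single g (1 : L))) := by
  change laurMap L G x * HahnSeries.single 0 (MonoidAlgebra.single g (1 : L)) =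
    HahnSeries.single 0 (MonoidAlgebra.single g (1 : L)) * laurMap L G x
  apply HahnSeries.ext
  funext k
  rw [HahnSeries.coeff_mul_single_zero, HahnSeries.coeff_single_zero_mul, laurMap_coeff,
    MonoidAlgebra.single_mul_single, MonoidAlgebra.single_mul_single, one_mul, mul_one, one_mul,
    mul_one]

theorem exists_hom (L G : Type) [CommRing L] [Group G] :
    ∃ φ : MonoidAlgebra (LaurentSeries L) G →+* LaurentSeries (MonoidAlgebra L G),
      ∀ (g : G) (f : LaurentSeries L) (k : ℤ),
        (φ (MonoidAlgebra.single g f)).coeff k = MonoidAlgebra.single g (f.coeff k) := by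
  let C' : G →* LaurentSeries (MonoidAlgebra L G) :=
    (HahnSeries.C : MonoidAlgebra L G →+* LaurentSeries (MonoidAlgebra L G)).toMonoidHom.comp
      (MonoidAlgebra.of L G)
  have hc : ∀ x g, Commute (laurMap L G x) (C' g) := fun x g => laurMap_comm L G x g
  refine ⟨MonoidAlgebra.liftNCRingHom (laurMap L G) C' hc, ?_⟩
  intro g f k
  rw [MonoidAlgebra.liftNCRingHom_single]
  have h1 : (laurMap L G f * HahnSeries.single 0 (MonoidAlgebra.single g (1 : L))).coeff k =
      MonoidAlgebra.single g (f.coeff k) := by
    rw [HahnSeries.coeff_mul_single_zero, laurMap_coeff, MonoidAlgebra.single_mul_single, one_mul,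
      mul_one]
  exact h1

end Pool.Agent.Ind
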