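import Pool.Agent.Lib.MP_8f66f0_al_Ind.Defs

/-! The Laurent series over a ring, with the power series as the subring `P`. (helper69) -/

set_option autoImplicit false

namespace Pool.Agent.Ind

open Pool.Agent.Wald Matrix

section

variable {T : Type} [Ring T]

private theorem lv_ps {f : LaurentSeries T} (h : ∀ i < 0, f.coeff i = 0) :
    ∃ P : PowerSeries T, HahnSeries.ofPowerSeries ℤ T P = f := by
  refine ⟨PowerSeries.mk fun n => f.coeff n, ?_⟩
  ext i
  rw [PowerSeries.coeff_coe]
  split_ifs with hi
  · exact (h i hi).symm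
  · rw [PowerSeries.coeff_mk]
    congr 1
    omega

private theorem lv_mul_neg {f g : LaurentSeries T} (hf : ∀ i < 0, f.coeff i = 0)
    (hg : ∀ i < 0, g.coeff i = 0) : ∀ i < 0, (f * g).coeff i = 0 := by
  obtain ⟨P, rfl⟩ := lv_ps hf
  obtain ⟨Q, rfl⟩ := lv_ps hg
  intro i hi
  rw [← map_mul, PowerSeries.coeff_coe, if_pos hi]

private theorem lv_mul_zero {f g : LaurentSeries T} (hf : ∀ i < 0, f.coeff i = 0)
    (hg : ∀ i < 0, g.coeff i = 0) : (f * g).coeff 0 = f.coeff 0 * g.coeff 0 := by
  obtain ⟨P, rfl⟩ := lv_ps hf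
  obtain ⟨Q, rfl⟩ := lv_ps hg
  rw [← map_mul, show (0 : ℤ) = ((0 : ℕ) : ℤ) from rfl, HahnSeries.ofPowerSeries_apply_coeff,
    HahnSeries.ofPowerSeries_apply_coeff, HahnSeries.ofPowerSeries_apply_coeff]
  simp only [PowerSeries.coeff_zero_eq_constantCoeff_apply, map_mul]

/-- The power series. -/
private def lvP (T : Type) [Ring T] : Submodule T (LaurentSeries T) where
  carrier := {f | ∀ k < 0, f.coeff k = 0}
  add_mem' := by
    intro a b ha hb k hk
    rw [HahnSeries.coeff_add, ha k hk, hb k hk, add_zero]
  zero_mem' := by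
    intro k _
    rw [HahnSeries.coeff_zero]
  smul_mem' := by
    intro c a ha k hk
    rw [HahnSeries.coeff_smul, ha k hk, smul_zero]

private theorem mem_lvP {f : LaurentSeries T} : f ∈ lvP T ↔ ∀ k < 0, f.coeff k = 0 := Iff.rfl

private theorem lv_mulX (q : LaurentSeries T) (b k : ℤ) :
    (q * HahnSeries.single b 1).coeff k = q.coeff (k - b) := by
  rw [HahnSeries.coeff_mul_single, mul_one]

private theorem lv_Xmul (q : LaurentSeries T) (b k : ℤ) :
    (HahnSeries.single b 1 * q).coeff k = q.coeff (k - b) := by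
  rw [HahnSeries.coeff_single_mul, one_mul]

private theorem lv_single_mul (a b : ℤ) (h : a + b = 0) :
    (HahnSeries.single a (1 : T) : LaurentSeries T) * HahnSeries.single b 1 = 1 := by
  rw [HahnSeries.single_mul_single, h, one_mul]
  rfl

/-- The negative coefficients. -/
private noncomputable def lvN (T : Type) [Ring T] : LaurentSeries T →ₗ[T] (ℕ →₀ T) where
  toFun f := Finsupp.onFinset (Finset.range (-f.order).toNat) (fun k => f.coeff (-1 - k)) (by
    intro k hk
    rw [Finset.mem_range]
    by_contra h
    apply hk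
    apply HahnSeries.coeff_eq_zero_of_lt_order
    omega)
  map_add' f g := by
    ext k
    rw [Finsupp.add_apply, Finsupp.onFinset_apply, Finsupp.onFinset_apply, Finsupp.onFinset_apply,
      HahnSeries.coeff_add]
  map_smul' c f := by
    ext k
    rw [Finsupp.onFinset_apply, HahnSeries.coeff_smul, RingHom.id_apply, Finsupp.smul_apply,
      Finsupp.onFinset_apply]

private theorem lvN_apply (f : LaurentSeries T) (k : ℕ) : lvN T f k = f.coeff (-1 - k) := rfl

private theorem lvN_ker : LinearMap.ker (lvN T) = lvP T := by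
  ext f
  rw [LinearMap.mem_ker, mem_lvP]
  constructor
  · intro h k hk
    have h1 := DFunLike.congr_fun h (-1 - k).toNat
    rw [lvN_apply, Finsupp.zero_apply] at h1
    rw [← h1]
    congr 1
    omega
  · intro h
    ext k
    rw [lvN_apply, Finsupp.zero_apply]
    apply h
    omega

private theorem lvN_surj : Function.Surjective (lvN T) := by
  intro h
  induction h using Finsupp.induction_linear with
  | zero => exact ⟨0, map_zero _⟩
  | add f g hf hg =>
    obtain ⟨a, rfl⟩ := hf
    obtain ⟨b, rfl⟩ := hg
    exact ⟨a + b, map_add _ _ _⟩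
  | single k c =>
    refine ⟨HahnSeries.single (-1 - (k : ℤ)) c, ?_⟩
    ext j
    rw [lvN_apply]
    by_cases hj : j = k
    · subst hj
      rw [HahnSeries.coeff_single_same, Finsupp.single_eq_same]
    · rw [HahnSeries.coeff_single_of_ne (by omega), Finsupp.single_eq_of_ne hj]

private theorem lv_proj : Module.Projective T (LaurentSeries T ⧸ lvP T) := by
  have e := (lvN T).quotKerEquivOfSurjective lvN_surj
  rw [lvN_ker] at e
  exact Module.Projective.of_equiv e.symm

end

theorem exists_val (T : Type) [Ring T] : ∃ v : Val T (LaurentSeries T),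
    v.y = HahnSeries.single 1 1 ∧ v.yi = HahnSeries.single (-1) 1 ∧
    ∀ f : LaurentSeries T, f ∈ v.P ↔ ∀ k < 0, f.coeff k = 0 := by
  refine ⟨{
    P := lvP T
    y := HahnSeries.single 1 1
    yi := HahnSeries.single (-1) 1
    one_mem := ?_
    mul_mem := fun a ha b hb => lv_mul_neg ha hb
    y_mem := ?_
    y_yi := lv_single_mul 1 (-1) (by norm_num)
    yi_y := lv_single_mul (-1) 1 (by norm_num)
    y_comm := ?_
    exh := ?_
    ev := { toFun := fun f => f.coeff 0
            map_add' := fun a b => HahnSeries.coeff_add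
            map_smul' := fun c a => HahnSeries.coeff_smul }
    ev_one := ?_
    ev_mul := fun a ha b hb => lv_mul_zero ha hb
    ev_y := ?_
    ev_ker := ?_
    proj := lv_proj }, rfl, rfl, fun f => Iff.rfl⟩
  · intro k hk
    rw [HahnSeries.coeff_one, if_neg (by omega)]
  · intro k hk
    rw [HahnSeries.coeff_single_of_ne (by omega)]
  · intro q
    ext k
    rw [lv_Xmul, lv_mulX]
  · intro q
    refine ⟨(-q.order).toNat, ?_⟩
    intro k hk
    rw [HahnSeries.single_pow, one_pow, lv_mulX]
    apply HahnSeries.coeff_eq_zero_of_lt_order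
    rw [nsmul_eq_mul, mul_one]
    omega
  · change (1 : LaurentSeries T).coeff 0 = 1
    rw [HahnSeries.coeff_one, if_pos rfl]
  · change (HahnSeries.single 1 1 : LaurentSeries T).coeff 0 = 0
    rw [HahnSeries.coeff_single_of_ne (by omega)]
  · intro a ha h0
    refine ⟨a * HahnSeries.single (-1) 1, ?_, ?_⟩
    · intro k hk
      rw [lv_mulX]
      by_cases h : k = -1
      · subst h
        exact h0
      · exact ha _ (by omega)
    · rw [mul_assoc, lv_single_mul (-1) 1 (by norm_num), mul_one]

end Pool.Agent.Ind
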