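import Pool.Agent.Lib.MP_8f66f0_al_Ind.Defs

/-! MP_8f66f0_al: the reduced projective class group (`exists_k0`). -/

set_option autoImplicit false

namespace Pool.Agent.Ind

open Pool.Agent.Wald Matrix

namespace K0Aux

/-- stable isomorphism -/
def SI (T M N : Type) [Ring T] [AddCommGroup M] [Module T M] [AddCommGroup N] [Module T N] : Prop :=
  ∃ a b : ℕ, Nonempty ((M × (Fin a → T)) ≃ₗ[T] (N × (Fin b → T)))

section

variable (T : Type) [Ring T]

/-- the sum of two free modules -/
def finAdd (a b : ℕ) : ((Fin a → T) × (Fin b → T)) ≃ₗ[T] (Fin (a + b) → T) :=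
  (LinearEquiv.sumArrowLequivProdArrow (Fin a) (Fin b) T T).symm ≪≫ₗ
    LinearEquiv.funCongrLeft T T finSumFinEquiv.symm

variable {M N R A B C D : Type} [AddCommGroup M] [Module T M] [AddCommGroup N] [Module T N]
  [AddCommGroup R] [Module T R] [AddCommGroup A] [Module T A] [AddCommGroup B] [Module T B]
  [AddCommGroup C] [Module T C] [AddCommGroup D] [Module T D]

/-- rearrangement -/
def sw : ((A × B) × C) ≃ₗ[T] ((A × C) × B) where
  toFun x := ((x.1.1, x.2), x.1.2)
  invFun x := ((x.1.1, x.2), x.1.2)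
  map_add' _ _ := rfl
  map_smul' _ _ := rfl
  left_inv _ := rfl
  right_inv _ := rfl

/-- rearrangement -/
def sw2 : (A × ((B × C) × D)) ≃ₗ[T] (C × (A × (B × D))) where
  toFun x := (x.2.1.2, (x.1, (x.2.1.1, x.2.2)))
  invFun y := (y.2.1, ((y.2.2.1, y.1), y.2.2.2))
  map_add' _ _ := rfl
  map_smul' _ _ := rfl
  left_inv _ := rfl
  right_inv _ := rfl

/-- rearrangement -/
def sw3 : (A × (B × C)) ≃ₗ[T] ((B × A) × C) where
  toFun x := ((x.2.1, x.1), x.2.2)
  invFun y := (y.1.2, (y.1.1, y.2))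
  map_add' _ _ := rfl
  map_smul' _ _ := rfl
  left_inv _ := rfl
  right_inv _ := rfl

theorem si_of_iso (e : M ≃ₗ[T] N) : SI T M N :=
  ⟨0, 0, ⟨LinearEquiv.prodCongr e (LinearEquiv.refl T _)⟩⟩

variable {T}

theorem SI.symm (h : SI T M N) : SI T N M := by
  obtain ⟨a, b, ⟨e⟩⟩ := h
  exact ⟨b, a, ⟨e.symm⟩⟩

theorem SI.trans (h : SI T M N) (h' : SI T N R) : SI T M R := by
  obtain ⟨a, b, ⟨e⟩⟩ := h
  obtain ⟨c, d, ⟨f⟩⟩ := h'
  refine ⟨a + c, d + b, ⟨?_⟩⟩
  exact LinearEquiv.prodCongr (LinearEquiv.refl T M) (finAdd T a c).symm ≪≫ₗ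
    (LinearEquiv.prodAssoc T M (Fin a → T) (Fin c → T)).symm ≪≫ₗ
    LinearEquiv.prodCongr e (LinearEquiv.refl T (Fin c → T)) ≪≫ₗ sw T ≪≫ₗ
    LinearEquiv.prodCongr f (LinearEquiv.refl T (Fin b → T)) ≪≫ₗ
    LinearEquiv.prodAssoc T R (Fin d → T) (Fin b → T) ≪≫ₗ
    LinearEquiv.prodCongr (LinearEquiv.refl T R) (finAdd T d b)

theorem SI.prod (h : SI T M N) (h' : SI T A B) : SI T (M × A) (N × B) := by
  obtain ⟨a, b, ⟨e⟩⟩ := h
  obtain ⟨c, d, ⟨f⟩⟩ := h'
  refine ⟨a + c, b + d, ⟨?_⟩⟩
  exact LinearEquiv.prodCongr (LinearEquiv.refl T (M × A)) (finAdd T a c).symm ≪≫ₗ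
    LinearEquiv.prodProdProdComm T M A (Fin a → T) (Fin c → T) ≪≫ₗ
    LinearEquiv.prodCongr e f ≪≫ₗ
    LinearEquiv.prodProdProdComm T N (Fin b → T) B (Fin d → T) ≪≫ₗ
    LinearEquiv.prodCongr (LinearEquiv.refl T (N × B)) (finAdd T b d)

/-- complements of stably isomorphic modules in free modules -/
theorem SI.cancel (h : SI T M N) {n m : ℕ} (f : (M × A) ≃ₗ[T] (Fin n → T))
    (g : (N × B) ≃ₗ[T] (Fin m → T)) : SI T A B := by
  obtain ⟨a, b, ⟨e⟩⟩ := h
  refine ⟨m + b, n + a, ⟨?_⟩⟩
  exact LinearEquiv.prodCongr (LinearEquiv.refl T A) (finAdd T m b).symm ≪≫ₗ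
    LinearEquiv.prodCongr (LinearEquiv.refl T A)
      (LinearEquiv.prodCongr g.symm (LinearEquiv.refl T (Fin b → T))) ≪≫ₗ sw2 T ≪≫ₗ
    LinearEquiv.prodCongr (LinearEquiv.refl T B)
      (LinearEquiv.prodCongr (LinearEquiv.refl T A) e.symm ≪≫ₗ sw3 T ≪≫ₗ
        LinearEquiv.prodCongr f (LinearEquiv.refl T (Fin a → T)) ≪≫ₗ finAdd T n a)

end

/-- objects: complemented submodules of free modules of finite rank -/
structure Ob (T : Type) [Ring T] where
  n : ℕ
  S : Submodule T (Fin n → T)
  S' : Submodule T (Fin n → T)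
  h : IsCompl S S'

section

variable {T : Type} [Ring T]

/-- the decomposition of the free module -/
noncomputable def Ob.e (X : Ob T) : (X.S × X.S') ≃ₗ[T] (Fin X.n → T) :=
  Submodule.prodEquivOfIsCompl X.S X.S' X.h

variable {M M' : Type} [AddCommGroup M] [Module T M] [AddCommGroup M'] [Module T M']

/-- the object of a decomposition -/
def ofIso {n : ℕ} (e : (M × M') ≃ₗ[T] (Fin n → T)) : Ob T where
  n := n
  S := (LinearMap.range (LinearMap.inl T M M')).map (e : (M × M') →ₗ[T] (Fin n → T))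
  S' := (LinearMap.range (LinearMap.inr T M M')).map (e : (M × M') →ₗ[T] (Fin n → T))
  h := OrderIso.isCompl (Submodule.orderIsoMapComap e) LinearMap.isCompl_range_inl_inr

/-- the module of this object -/
noncomputable def ofIsoS {n : ℕ} (e : (M × M') ≃ₗ[T] (Fin n → T)) : M ≃ₗ[T] (ofIso e).S :=
  LinearEquiv.ofInjective (LinearMap.inl T M M') LinearMap.inl_injective ≪≫ₗ
    e.submoduleMap (LinearMap.range (LinearMap.inl T M M'))

/-- the setoid -/
def st (T : Type) [Ring T] : Setoid (Ob T) where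
  r X Y := SI T X.S Y.S
  iseqv := ⟨fun X => si_of_iso T (LinearEquiv.refl T X.S), fun h => h.symm, fun h h' => h.trans h'⟩

/-- product of objects -/
noncomputable def mulOb (X Y : Ob T) : Ob T :=
  ofIso (M := X.S × Y.S) (M' := X.S' × Y.S') (n := X.n + Y.n)
    (LinearEquiv.prodProdProdComm T X.S Y.S X.S' Y.S' ≪≫ₗ LinearEquiv.prodCongr X.e Y.e ≪≫ₗ
      finAdd T X.n Y.n)

theorem mulOb_si (X Y : Ob T) : SI T (mulOb X Y).S (X.S × Y.S) :=
  (si_of_iso T (ofIsoS _)).symm

/-- the inverse -/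
def invOb (X : Ob T) : Ob T := ⟨X.n, X.S', X.S, X.h.symm⟩

/-- the unit -/
def oneOb (T : Type) [Ring T] : Ob T := ⟨0, ⊥, ⊤, isCompl_bot_top⟩

theorem si_one {N : Type} [AddCommGroup N] [Module T N] [Subsingleton N] (a : ℕ)
    (e : M ≃ₗ[T] (Fin a → T)) : SI T M N := by
  refine ⟨0, a, ⟨?_⟩⟩
  refine LinearEquiv.prodCongr e (LinearEquiv.refl T (Fin 0 → T)) ≪≫ₗ ?_
  refine LinearEquiv.prodComm T (Fin a → T) (Fin 0 → T) ≪≫ₗ ?_
  refine LinearEquiv.prodCongr ?_ (LinearEquiv.refl T (Fin a → T))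
  exact { toFun := fun _ => 0
          invFun := fun _ => 0
          map_add' := fun _ _ => Subsingleton.elim _ _
          map_smul' := fun _ _ => Subsingleton.elim _ _
          left_inv := fun _ => Subsingleton.elim _ _
          right_inv := fun _ => Subsingleton.elim _ _ }

instance : Subsingleton (oneOb T).S := by
  show Subsingleton (⊥ : Submodule T (Fin 0 → T))
  infer_instance

/-- the reduced projective class group -/
def K (T : Type) [Ring T] : Type := Quotient (st T)

/-- the class of an object -/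
def mk (X : Ob T) : K T := Quotient.mk (st T) X

theorem mk_eq {X Y : Ob T} : mk X = mk Y ↔ SI T X.S Y.S := by
  unfold mk
  constructor
  · intro h
    exact Quotient.exact h
  · intro h
    exact Quotient.sound h

theorem mulOb_congr {X X' Y Y' : Ob T} (h : SI T X.S X'.S) (h' : SI T Y.S Y'.S) :
    SI T (mulOb X Y).S (mulOb X' Y').S :=
  (mulOb_si X Y).trans ((h.prod h').trans (mulOb_si X' Y').symm)

/-- the group structure -/
noncomputable instance : CommGroup (K T) where
  mul := Quotient.map₂ mulOb fun _ _ h _ _ h' => mulOb_congr h h'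
  one := mk (oneOb T)
  inv := Quotient.map invOb fun X Y h => SI.cancel h X.e Y.e
  mul_assoc x y z := by
    induction x using Quotient.inductionOn with | _ X
    induction y using Quotient.inductionOn with | _ Y
    induction z using Quotient.inductionOn with | _ Z
    refine mk_eq.2 ?_
    have h1 : SI T (mulOb (mulOb X Y) Z).S ((X.S × Y.S) × Z.S) :=
      (mulOb_si _ _).trans ((mulOb_si X Y).prod (si_of_iso T (LinearEquiv.refl T Z.S)))
    have h2 : SI T (mulOb X (mulOb Y Z)).S (X.S × (Y.S × Z.S)) :=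
      (mulOb_si _ _).trans ((si_of_iso T (LinearEquiv.refl T X.S)).prod (mulOb_si Y Z))
    exact h1.trans ((si_of_iso T (LinearEquiv.prodAssoc T X.S Y.S Z.S)).trans h2.symm)
  one_mul x := by
    induction x using Quotient.inductionOn with | _ X
    refine mk_eq.2 ((mulOb_si _ _).trans ?_)
    refine si_of_iso T ?_
    exact { toFun := fun x => x.2
            invFun := fun x => (0, x)
            map_add' := fun _ _ => rfl
            map_smul' := fun _ _ => rfl
            left_inv := fun x => Prod.ext (Subsingleton.elim _ _) rfl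
            right_inv := fun _ => rfl }
  mul_one x := by
    induction x using Quotient.inductionOn with | _ X
    refine mk_eq.2 ((mulOb_si _ _).trans ?_)
    refine si_of_iso T ?_
    exact { toFun := fun x => x.1
            invFun := fun x => (x, 0)
            map_add' := fun _ _ => rfl
            map_smul' := fun _ _ => rfl
            left_inv := fun x => Prod.ext rfl (Subsingleton.elim _ _)
            right_inv := fun _ => rfl }
  inv_mul_cancel x := by
    induction x using Quotient.inductionOn with | _ X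
    refine mk_eq.2 ((mulOb_si _ _).trans ?_)
    exact si_one X.n (LinearEquiv.prodComm T X.S' X.S ≪≫ₗ X.e)
  mul_comm x y := by
    induction x using Quotient.inductionOn with | _ X
    induction y using Quotient.inductionOn with | _ Y
    refine mk_eq.2 ((mulOb_si _ _).trans (SI.trans ?_ (mulOb_si _ _).symm))
    exact si_of_iso T (LinearEquiv.prodComm T X.S Y.S)

theorem mk_mul (X Y : Ob T) : mk X * mk Y = mk (mulOb X Y) := rfl

theorem mk_one : (1 : K T) = mk (oneOb T) := rfl

/-- every finitely generated projective module is the module of an object -/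
theorem exists_ob (h : FGP T M) : ∃ X : Ob T, Nonempty (M ≃ₗ[T] X.S) := by
  obtain ⟨hfin, hproj⟩ := h
  obtain ⟨n, f, hf⟩ := Module.Finite.exists_fin' T M
  obtain ⟨g, hg⟩ := Module.projective_lifting_property f LinearMap.id hf
  have hfg : ∀ m, f (g m) = m := fun m => by
    have := LinearMap.congr_fun hg m
    exact this
  refine ⟨⟨n, LinearMap.range g, LinearMap.ker f, ?_⟩, ⟨LinearEquiv.ofInjective g ?_⟩⟩
  · constructor
    · rw [Submodule.disjoint_def]
      rintro x ⟨m, rfl⟩ hx
      rw [LinearMap.mem_ker, hfg] at hx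
      rw [hx, map_zero]
    · rw [codisjoint_iff, eq_top_iff]
      intro x _
      rw [Submodule.mem_sup]
      refine ⟨g (f x), ⟨f x, rfl⟩, x - g (f x), ?_, by abel⟩
      rw [LinearMap.mem_ker, map_sub, hfg, sub_self]
  · intro a b hab
    rw [← hfg a, ← hfg b, hab]

open Classical in
/-- the class of a module -/
noncomputable def cls (T M : Type) [Ring T] [AddCommGroup M] [Module T M] : K T :=
  if h : FGP T M then mk (exists_ob h).choose else 1

theorem cls_eq (h : FGP T M) (X : Ob T) (e : M ≃ₗ[T] X.S) : cls T M = mk X := by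
  unfold cls
  rw [dif_pos h, mk_eq]
  exact si_of_iso T ((exists_ob h).choose_spec.some.symm ≪≫ₗ e)

end

end K0Aux

open K0Aux in
theorem exists_k0 (T : Type) [Ring T] : Nonempty (K0Data T) := by
  refine ⟨{ K := K T, cls := fun M _ _ => K0Aux.cls T M, cls_prod := ?_, cls_iso := ?_,
            cls_free := ?_, cls_one := ?_ }⟩
  · intro M N _ _ _ _ hM hN
    obtain ⟨X, ⟨e⟩⟩ := exists_ob hM
    obtain ⟨Y, ⟨f⟩⟩ := exists_ob hN
    have hMN : FGP T (M × N) := by
      obtain ⟨h1, h2⟩ := hM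
      obtain ⟨h3, h4⟩ := hN
      exact ⟨inferInstance, inferInstance⟩
    show K0Aux.cls T (M × N) = K0Aux.cls T M * K0Aux.cls T N
    rw [cls_eq hM X e, cls_eq hN Y f, mk_mul]
    exact cls_eq hMN (mulOb X Y) (LinearEquiv.prodCongr e f ≪≫ₗ ofIsoS _)
  · intro M N _ _ _ _ hM e
    obtain ⟨X, ⟨f⟩⟩ := exists_ob hM
    have hN : FGP T N := by
      obtain ⟨h1, h2⟩ := hM
      exact ⟨Module.Finite.equiv e, Module.Projective.of_equiv e⟩
    show K0Aux.cls T M = K0Aux.cls T N
    rw [cls_eq hM X f, cls_eq hN X (e.symm ≪≫ₗ f)]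
  · intro a
    have h : FGP T (Fin a → T) := ⟨inferInstance, inferInstance⟩
    obtain ⟨X, ⟨f⟩⟩ := exists_ob h
    show K0Aux.cls T (Fin a → T) = 1
    rw [cls_eq h X f, mk_one, mk_eq]
    exact si_one a f.symm
  · intro M _ _ hM h
    obtain ⟨X, ⟨f⟩⟩ := exists_ob hM
    change K0Aux.cls T M = 1 at h
    rw [cls_eq hM X f, mk_one, mk_eq] at h
    obtain ⟨a, b, ⟨e⟩⟩ := h
    refine ⟨a, b, ⟨LinearEquiv.prodCongr f (LinearEquiv.refl T (Fin a → T)) ≪≫ₗ e ≪≫ₗ ?_⟩⟩
    exact { toFun := fun x => x.2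
            invFun := fun x => (0, x)
            map_add' := fun _ _ => rfl
            map_smul' := fun _ _ => rfl
            left_inv := fun x => Prod.ext (Subsingleton.elim _ _) rfl
            right_inv := fun _ => rfl }

end Pool.Agent.Ind
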