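import Pool.Agent.Lib.MP_8f66f0_al_Ind.Bd1b
import Pool.Agent.Lib.MP_8f66f0_al_Wald.K1Lem

/-! The index homomorphism. -/

set_option autoImplicit false

namespace Pool.Agent.Ind

open Pool.Agent.Wald Matrix

section Bd

variable {T Q : Type} [Ring T] [Ring Q] [Module T Q] [IsScalarTower T Q Q] (v : Val T Q)

theorem bd2_mul_mem {n : Type} [Fintype n] {A B : Matrix n n Q} {m m' : ℕ}
    (hm : ∀ i j, A i j * v.y ^ m ∈ v.P) (hm' : ∀ i j, B i j * v.y ^ m' ∈ v.P) (i j : n) :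
    (A * B) i j * v.y ^ (m + m') ∈ v.P := by
  have h := congrFun (congrFun (bd1b_mul v A B m (v.y ^ m')) i) j
  rw [Matrix.map_apply, ← pow_add] at h
  rw [← h, Matrix.mul_apply]
  refine v.P.sum_mem fun k _ => ?_
  rw [Matrix.map_apply, Matrix.map_apply]
  exact v.mul_mem _ (hm i k) _ (hm' k j)

/-- The index of a reindexed matrix. -/
theorem bd2_reindex (D : K0Data T) {n m : Type} [Fintype n] [DecidableEq n] [Fintype m]
    [DecidableEq m] (e : n ≃ m) (A : Matrix n n Q) (hA : IsUnit A) (k : ℕ)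
    (hk : ∀ i j, A i j * v.y ^ k ∈ v.P) :
    D.ind (v.F m) (v.L (A.submatrix e.symm e.symm) k) = D.ind (v.F n) (v.L A k) := by
  let φ : (n → Q) ≃ₗ[T] (m → Q) := LinearEquiv.funCongrLeft T Q e.symm
  have hφ : ∀ (x : n → Q) (j : m), φ x j = x (e.symm j) := fun x j => rfl
  have h1 : (v.F n).map (φ : (n → Q) →ₗ[T] (m → Q)) = v.F m := by
    ext x
    rw [Submodule.mem_map, bd1b_memF]
    constructor
    · rintro ⟨z, hz, rfl⟩ j
      exact (bd1b_memF v z).1 hz _
    · intro hx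
      refine ⟨fun i => x (e i), (bd1b_memF v _).2 fun i => hx _, ?_⟩
      funext j
      show x (e (e.symm j)) = x j
      rw [e.apply_symm_apply]
  have hmul : ∀ x : n → Q, φ (rmul T (A.map fun q => q * v.y ^ k) x) =
      rmul T ((A.submatrix e.symm e.symm).map fun q => q * v.y ^ k) (φ x) := by
    intro x
    funext j
    show ∑ i, x i * (A i (e.symm j) * v.y ^ k) =
      ∑ i, x (e.symm i) * (A (e.symm i) (e.symm j) * v.y ^ k)
    exact (Equiv.sum_comp e.symm fun i => x i * (A i (e.symm j) * v.y ^ k)).symm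
  have h2 : (v.L A k).map (φ : (n → Q) →ₗ[T] (m → Q)) =
      v.L (A.submatrix e.symm e.symm) k := by
    rw [Val.L, Val.L, ← h1, ← Submodule.map_comp, ← Submodule.map_comp]
    congr 1
    exact LinearMap.ext hmul
  have h3 := (ind_map D (fpq_L v hA hk) (φ : (n → Q) →ₗ[T] (m → Q)) φ.injective).2
  rw [h1, h2] at h3
  exact h3

/-- The index of a block triangular matrix. -/
theorem bd2_tri (D : K0Data T) {n m : Type} [Fintype n] [DecidableEq n] [Fintype m]
    [DecidableEq m] (A : Matrix n n Q) (B : Matrix n m Q) (C : Matrix m m Q) (hA : IsUnit A)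
    (hC : IsUnit C) (k : ℕ) (hM : ∀ i j, Matrix.fromBlocks A B 0 C i j * v.y ^ k ∈ v.P) :
    D.ind (v.F (n ⊕ m)) (v.L (Matrix.fromBlocks A B 0 C) k) =
      D.ind (v.F n) (v.L A k) * D.ind (v.F m) (v.L C k) := by
  have hMu : IsUnit (Matrix.fromBlocks A B 0 C) := K1Fun.isUnit_tri B hA hC
  have hAk : ∀ i j, A i j * v.y ^ k ∈ v.P := fun i j => hM (Sum.inl i) (Sum.inl j)
  have hBk : ∀ i j, B i j * v.y ^ k ∈ v.P := fun i j => hM (Sum.inl i) (Sum.inr j)
  have hCk : ∀ i j, C i j * v.y ^ k ∈ v.P := fun i j => hM (Sum.inr i) (Sum.inr j)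
  let RA : (n → Q) →ₗ[T] (n → Q) := rmul T (A.map fun q => q * v.y ^ k)
  let RB : (n → Q) →ₗ[T] (m → Q) := rmul T (B.map fun q => q * v.y ^ k)
  let RC : (m → Q) →ₗ[T] (m → Q) := rmul T (C.map fun q => q * v.y ^ k)
  let ψ : (n ⊕ m → Q) ≃ₗ[T] (n → Q) × (m → Q) := LinearEquiv.sumArrowLequivProdArrow n m T Q
  let E : (n → Q) × (m → Q) →ₗ[T] (n → Q) × (m → Q) :=
    LinearMap.prod (RA ∘ₗ LinearMap.fst T _ _)
      (RB ∘ₗ LinearMap.fst T _ _ + LinearMap.snd T _ _)
  have hE : ∀ x z, E (x, z) = (RA x, RB x + z) := fun x z => rfl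
  have hRBF : ∀ x ∈ v.F n, RB x ∈ v.F m := by
    intro x hx
    rw [bd1b_memF]
    intro j
    show ∑ i, x i * (B i j * v.y ^ k) ∈ v.P
    exact v.P.sum_mem fun i _ => v.mul_mem _ ((bd1b_memF v x).1 hx i) _ (hBk i j)
  have hEinj : Function.Injective E := by
    rintro ⟨x, z⟩ ⟨x', z'⟩ h
    rw [hE, hE, Prod.mk.injEq] at h
    have h1 : x = x' := bd1b_inj v hA k h.1
    subst h1
    rw [Prod.mk.injEq]
    exact ⟨rfl, add_left_cancel h.2⟩
  have hF : (v.F (n ⊕ m)).map (ψ : (n ⊕ m → Q) →ₗ[T] (n → Q) × (m → Q)) =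
      (v.F n).prod (v.F m) := by
    ext ⟨x, z⟩
    rw [Submodule.mem_map, Submodule.mem_prod]
    constructor
    · rintro ⟨u, hu, h⟩
      have hu' := (bd1b_memF v u).1 hu
      have h' : ((fun i => u (Sum.inl i), fun j => u (Sum.inr j)) : (n → Q) × (m → Q)) =
        (x, z) := h
      rw [Prod.mk.injEq] at h'
      obtain ⟨rfl, rfl⟩ := h'
      exact ⟨(bd1b_memF v _).2 fun i => hu' _, (bd1b_memF v _).2 fun j => hu' _⟩
    · rintro ⟨hx, hz⟩
      refine ⟨Sum.elim x z, (bd1b_memF v _).2 ?_, rfl⟩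
      rintro (i | j)
      · exact (bd1b_memF v x).1 hx i
      · exact (bd1b_memF v z).1 hz j
  have hψM : ∀ u : n ⊕ m → Q, ψ (rmul T ((Matrix.fromBlocks A B 0 C).map fun q =>
      q * v.y ^ k) u) = (RA (ψ u).1, RB (ψ u).1 + RC (ψ u).2) := by
    intro u
    refine Prod.ext ?_ ?_
    · funext j
      show ∑ i, u i * ((Matrix.fromBlocks A B 0 C) i (Sum.inl j) * v.y ^ k) =
        ∑ i, u (Sum.inl i) * (A i j * v.y ^ k)
      rw [Fintype.sum_sum_type]
      simp
    · funext j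
      show ∑ i, u i * ((Matrix.fromBlocks A B 0 C) i (Sum.inr j) * v.y ^ k) =
        ∑ i, u (Sum.inl i) * (B i j * v.y ^ k) + ∑ i, u (Sum.inr i) * (C i j * v.y ^ k)
      rw [Fintype.sum_sum_type]
      simp
  have hL : (v.L (Matrix.fromBlocks A B 0 C) k).map
      (ψ : (n ⊕ m → Q) →ₗ[T] (n → Q) × (m → Q)) = ((v.F n).prod (v.L C k)).map E := by
    ext p
    rw [Submodule.mem_map, Submodule.mem_map]
    constructor
    · rintro ⟨_, ⟨u, hu, rfl⟩, rfl⟩
      have h1 : ψ u ∈ (v.F n).prod (v.F m) := by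
        rw [← hF]
        exact Submodule.mem_map_of_mem hu
      rw [Submodule.mem_prod] at h1
      refine ⟨((ψ u).1, RC (ψ u).2), ?_, ?_⟩
      · rw [Submodule.mem_prod]
        exact ⟨h1.1, Submodule.mem_map_of_mem h1.2⟩
      · rw [hE]
        exact (hψM u).symm
    · rintro ⟨⟨x, w⟩, h1, rfl⟩
      rw [Submodule.mem_prod] at h1
      obtain ⟨hx, z, hz, rfl⟩ := h1
      have h2 : (x, z) ∈ (v.F (n ⊕ m)).map (ψ : (n ⊕ m → Q) →ₗ[T] (n → Q) × (m → Q)) := by
        rw [hF, Submodule.mem_prod]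
        exact ⟨hx, hz⟩
      obtain ⟨u, hu, h3⟩ := h2
      have h3' : ψ u = (x, z) := h3
      refine ⟨_, ⟨u, hu, rfl⟩, ?_⟩
      refine (hψM u).trans ?_
      rw [h3', hE]
  have hEF : ((v.F n).prod (v.F m)).map E = (v.L A k).prod (v.F m) := by
    ext ⟨x, z⟩
    rw [Submodule.mem_map, Submodule.mem_prod]
    constructor
    · rintro ⟨⟨x', z'⟩, h1, h2⟩
      rw [Submodule.mem_prod] at h1
      rw [hE, Prod.mk.injEq] at h2
      obtain ⟨rfl, rfl⟩ := h2
      exact ⟨Submodule.mem_map_of_mem h1.1, (v.F m).add_mem (hRBF _ h1.1) h1.2⟩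
    · rintro ⟨⟨x', hx', h1⟩, hz⟩
      have h1' : RA x' = x := h1
      refine ⟨(x', z - RB x'), ?_, ?_⟩
      · rw [Submodule.mem_prod]
        exact ⟨hx', (v.F m).sub_mem hz (hRBF _ hx')⟩
      · rw [hE, h1', add_sub_cancel]
  have i1 := ind_prod D (fpq_L v hA hAk) (ind_self D (v.F m)).1
  have i2 := ind_prod D (ind_self D (v.F n)).1 (fpq_L v hC hCk)
  have i3 := ind_map D i2.1 E hEinj
  rw [hEF, ← hL] at i3
  have i4 := ind_trans D i1.1 i3.1
  have i5 := ind_map D (fpq_L v hMu hM) (ψ : (n ⊕ m → Q) →ₗ[T] (n → Q) × (m → Q)) ψ.injective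
  rw [hF] at i5
  rw [← i5.2, i4.2, i1.2, i3.2, i2.2, (ind_self D (v.F m)).2, (ind_self D (v.F n)).2, mul_one,
    one_mul]

theorem exists_index (D : K0Data T) : ∃ κ : K1Fun Q D.K, ∀ (n : Type) [Fintype n]
    [DecidableEq n] (A : Matrix n n Q) (m : ℕ), IsUnit A → (∀ i j, A i j * v.y ^ m ∈ v.P) →
      κ.f A = D.ind (v.F n) (v.L A m) := by
  classical
  let N : ∀ {n : Type} [Fintype n], Matrix n n Q → ℕ := fun A => (exists_pow v A).choose
  have hN : ∀ {n : Type} [Fintype n] (A : Matrix n n Q), ∀ i j, A i j * v.y ^ N A ∈ v.P :=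
    fun A => (exists_pow v A).choose_spec _ le_rfl
  have key : ∀ {n : Type} [Fintype n] [DecidableEq n] (A : Matrix n n Q) (m : ℕ), IsUnit A →
      (∀ i j, A i j * v.y ^ m ∈ v.P) →
      D.ind (v.F n) (v.L A (N A)) = D.ind (v.F n) (v.L A m) := fun A m hA hm =>
    ind_L_indep v D hA (hN A) hm
  refine ⟨{ f := fun {n} _ _ A => D.ind (v.F n) (v.L A (N A))
            mul := ?_
            reindex := ?_
            tri := ?_ }, ?_⟩
  · intro n _ _ A B hA hB
    show D.ind (v.F n) (v.L (A * B) (N (A * B))) =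
      D.ind (v.F n) (v.L A (N A)) * D.ind (v.F n) (v.L B (N B))
    rw [key (A * B) (N A + N B) (hA.mul hB) (bd2_mul_mem v (hN A) (hN B)),
      ind_L_mul v D hA hB (hN A) (hN B)]
  · intro n m _ _ _ _ e A hA
    show D.ind (v.F m) (v.L (A.submatrix e.symm e.symm) (N (A.submatrix e.symm e.symm))) =
      D.ind (v.F n) (v.L A (N A))
    have hA' : IsUnit (A.submatrix e.symm e.symm) := K1Fun.isUnit_submatrix e hA
    rw [key _ (N A) hA' fun i j => hN A _ _, bd2_reindex v D e A hA (N A) (hN A)]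
  · intro n m _ _ _ _ A B C hA hC
    show D.ind (v.F (n ⊕ m)) (v.L (Matrix.fromBlocks A B 0 C) (N (Matrix.fromBlocks A B 0 C))) =
      D.ind (v.F n) (v.L A (N A)) * D.ind (v.F m) (v.L C (N C))
    have hM := hN (Matrix.fromBlocks A B 0 C)
    rw [bd2_tri v D A B C hA hC _ hM, key A _ hA fun i j => hM (Sum.inl i) (Sum.inl j),
      key C _ hC fun i j => hM (Sum.inr i) (Sum.inr j)]
  · intro n _ _ A m hA hm
    exact key A m hA hm

end Bd

end Pool.Agent.Ind
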