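import Pool.Agent.Lib.MP_8f66f0_al_Ind.Rel

/-! MP_8f66f0_al, index homomorphism: the index of `y`, of a unit of `P` and of `1 - p + p y`. -/

set_option autoImplicit false

namespace Pool.Agent.Ind

open Pool.Agent.Wald Matrix

section Bd3

variable {T Q : Type} [Ring T] [Ring Q] [Module T Q] [IsScalarTower T Q Q] (v : Val T Q)

theorem bd3_mem_F {n : Type} (x : n → Q) : x ∈ v.F n ↔ ∀ i, x i ∈ v.P := by
  simp [Val.F, Submodule.mem_pi]

theorem bd3_rmul_apply {n m : Type} [Fintype n] (A : Matrix n m Q) (x : n → Q) :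
    rmul T A x = Matrix.vecMul x A := rfl

theorem bd3_map_pow_zero {n : Type} (A : Matrix n n Q) :
    (A.map fun q => q * v.y ^ 0) = A := by
  ext i j
  simp

theorem bd3_mem_L0 {n : Type} [Fintype n] (A : Matrix n n Q) (x : n → Q) :
    x ∈ v.L A 0 ↔ ∃ z : n → Q, (∀ i, z i ∈ v.P) ∧ Matrix.vecMul z A = x := by
  unfold Val.L
  rw [bd3_map_pow_zero, Submodule.mem_map]
  constructor
  · rintro ⟨z, hz, rfl⟩
    exact ⟨z, (bd3_mem_F v z).mp hz, rfl⟩
  · rintro ⟨z, hz, rfl⟩
    exact ⟨z, (bd3_mem_F v z).mpr hz, rfl⟩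

theorem bd3_ev_smul_one (t : T) : v.ev (t • (1 : Q)) = t := by
  rw [map_smul, v.ev_one, smul_eq_mul, mul_one]

theorem bd3_vecMul_mem {n : Type} [Fintype n] (A : Matrix n n Q) (hA : ∀ i j, A i j ∈ v.P)
    {z : n → Q} (hz : ∀ i, z i ∈ v.P) (j : n) : Matrix.vecMul z A j ∈ v.P := by
  simp only [Matrix.vecMul, dotProduct]
  exact Submodule.sum_mem _ fun i _ => v.mul_mem _ (hz i) _ (hA i j)

theorem bd3_ev_vecMul {n : Type} [Fintype n] (A : Matrix n n Q) (hA : ∀ i j, A i j ∈ v.P)
    {z : n → Q} (hz : ∀ i, z i ∈ v.P) (j : n) :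
    v.ev (Matrix.vecMul z A j) = ∑ i, v.ev (z i) * v.ev (A i j) := by
  simp only [Matrix.vecMul, dotProduct]
  rw [map_sum]
  exact Finset.sum_congr rfl fun i _ => v.ev_mul _ (hz i) _ (hA i j)

theorem index_y (D : K0Data T) :
    D.ind (v.F (Fin 1)) (v.L (Matrix.of fun _ _ : Fin 1 => v.y) 0) = 1 := by
  have hA : ∀ i j, (Matrix.of fun _ _ : Fin 1 => v.y) i j ∈ v.P := fun _ _ => v.y_mem
  have hYX : v.L (Matrix.of fun _ _ : Fin 1 => v.y) 0 ≤ v.F (Fin 1) := by
    intro x hx
    rw [bd3_mem_L0] at hx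
    obtain ⟨z, hz, rfl⟩ := hx
    rw [bd3_mem_F]
    exact bd3_vecMul_mem v _ hA hz
  have hM : FGP T (Fin 1 → T) := ⟨inferInstance, inferInstance⟩
  let f : v.F (Fin 1) →ₗ[T] (Fin 1 → T) :=
    (LinearMap.pi fun _ : Fin 1 => v.ev ∘ₗ LinearMap.proj 0) ∘ₗ (v.F (Fin 1)).subtype
  have hfx : ∀ x : v.F (Fin 1), ∀ i, f x i = v.ev ((x : Fin 1 → Q) 0) := fun _ _ => rfl
  have hf : Function.Surjective f := by
    intro c
    refine ⟨⟨fun _ => c 0 • (1 : Q), ?_⟩, ?_⟩
    · rw [bd3_mem_F]
      exact fun _ => v.P.smul_mem _ v.one_mem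
    · funext i
      rw [hfx, Subsingleton.elim i 0]
      exact bd3_ev_smul_one v (c 0)
  have hk : ∀ x : v.F (Fin 1), f x = 0 ↔
      (x : Fin 1 → Q) ∈ v.L (Matrix.of fun _ _ : Fin 1 => v.y) 0 := by
    intro x
    have hx0 := (bd3_mem_F v (x : Fin 1 → Q)).mp x.2
    rw [bd3_mem_L0]
    constructor
    · intro h
      have h0 : v.ev ((x : Fin 1 → Q) 0) = 0 := by
        have := congrFun h 0
        rwa [hfx] at this
      obtain ⟨b, hb, hxb⟩ := v.ev_ker _ (hx0 0) h0
      refine ⟨fun _ => b, fun _ => hb, ?_⟩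
      funext j
      rw [Subsingleton.elim j 0]
      simp [Matrix.vecMul, dotProduct, hxb]
    · rintro ⟨z, hz, hzx⟩
      funext i
      rw [hfx, ← hzx, bd3_ev_vecMul v _ hA hz]
      simp [v.ev_y]
  exact (ind_quot D hYX hM f hf hk).2.trans (D.cls_free 1)

theorem index_unit (D : K0Data T) {w wi : Q} (hw : w ∈ v.P) (hwi : wi ∈ v.P) (h : w * wi = 1)
    (h' : wi * w = 1) :
    D.ind (v.F (Fin 1)) (v.L (Matrix.of fun _ _ : Fin 1 => w) 0) = 1 := by
  have hA : ∀ i j, (Matrix.of fun _ _ : Fin 1 => w) i j ∈ v.P := fun _ _ => hw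
  have hXY : v.L (Matrix.of fun _ _ : Fin 1 => w) 0 = v.F (Fin 1) := by
    apply le_antisymm
    · intro x hx
      rw [bd3_mem_L0] at hx
      obtain ⟨z, hz, rfl⟩ := hx
      rw [bd3_mem_F]
      exact bd3_vecMul_mem v _ hA hz
    · intro x hx
      rw [bd3_mem_F] at hx
      rw [bd3_mem_L0]
      refine ⟨fun i => x i * wi, fun i => v.mul_mem _ (hx i) _ hwi, ?_⟩
      funext j
      rw [Subsingleton.elim j 0]
      simp [Matrix.vecMul, dotProduct, mul_assoc, h']
  rw [hXY]
  exact (ind_self D _).2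

private theorem bd3_ring_inv {R : Type} [Ring R] {e y yi : R} (he : e * e = e) (hy : y * e = e * y)
    (h : y * yi = 1) : (1 - e + e * y) * (1 - e + e * yi) = 1 := by
  have h1 : e * y * e = e * y := by rw [mul_assoc, hy, ← mul_assoc, he]
  calc (1 - e + e * y) * (1 - e + e * yi)
      = 1 - e - e + e * e + e * yi - (e * e) * yi + e * y - e * y * e + (e * y * e) * yi := by
        noncomm_ring
    _ = 1 := by
        rw [h1, he, mul_assoc e y yi, h, mul_one]
        abel

theorem bd3_up_mul {n : Type} [Fintype n] (p q : Matrix n n T) :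
    up T Q (p * q) = up T Q p * up T Q q := by
  ext i j
  simp only [up, Matrix.map_apply, Matrix.mul_apply, Finset.sum_smul]
  apply Finset.sum_congr rfl
  intro k _
  rw [smul_mul_assoc, one_mul, mul_smul]

theorem bd3_map_y {n : Type} [Fintype n] [DecidableEq n] (A : Matrix n n Q) (y : Q) :
    (A.map fun q => q * y) = A * Matrix.diagonal (fun _ : n => y) := by
  ext i j
  rw [Matrix.mul_diagonal]
  rfl

theorem index_idem (D : K0Data T) {n : ℕ} (p : Matrix (Fin n) (Fin n) T) (hp : p * p = p) :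
    D.ind (v.F (Fin n)) (v.L (1 - up T Q p + (up T Q p).map fun q => q * v.y) 0) =
      D.cls (LinearMap.range (Matrix.vecMulLinear p)) ∧
    IsUnit (1 - up T Q p + (up T Q p).map fun q => q * v.y) := by
  set e : Matrix (Fin n) (Fin n) Q := up T Q p with he
  set Y : Matrix (Fin n) (Fin n) Q := Matrix.diagonal (fun _ => v.y) with hY
  set Yi : Matrix (Fin n) (Fin n) Q := Matrix.diagonal (fun _ => v.yi) with hYi
  have hee : e * e = e := by rw [he, ← bd3_up_mul, hp]
  have hYYi : Y * Yi = 1 := by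
    rw [hY, hYi, Matrix.diagonal_mul_diagonal]
    simp [v.y_yi]
  have hYiY : Yi * Y = 1 := by
    rw [hY, hYi, Matrix.diagonal_mul_diagonal]
    simp [v.yi_y]
  have hYc : ∀ A : Matrix (Fin n) (Fin n) Q, Y * A = A * Y := by
    intro A
    ext i j
    rw [hY, Matrix.diagonal_mul, Matrix.mul_diagonal, v.y_comm]
  have hYic : ∀ A : Matrix (Fin n) (Fin n) Q, Yi * A = A * Yi := by
    intro A
    calc Yi * A = Yi * A * (Y * Yi) := by rw [hYYi, mul_one]
      _ = Yi * (A * Y) * Yi := by simp only [mul_assoc]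
      _ = Yi * (Y * A) * Yi := by rw [hYc]
      _ = (Yi * Y) * A * Yi := by simp only [mul_assoc]
      _ = A * Yi := by rw [hYiY, one_mul]
  have hAeq : (1 - e + e.map fun q => q * v.y) = 1 - e + e * Y := by rw [bd3_map_y]
  rw [hAeq]
  have hu1 : (1 - e + e * Y) * (1 - e + e * Yi) = 1 := bd3_ring_inv hee (hYc e) hYYi
  have hu2 : (1 - e + e * Yi) * (1 - e + e * Y) = 1 := bd3_ring_inv hee (hYic e) hYiY
  refine ⟨?_, ⟨⟨_, _, hu1, hu2⟩, rfl⟩⟩
  -- entries
  have hsm : ∀ t : T, t • (1 : Q) ∈ v.P := fun t => v.P.smul_mem _ v.one_mem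
  have heP : ∀ i j, e i j ∈ v.P := fun i j => hsm (p i j)
  have h1P : ∀ i j, (1 : Matrix (Fin n) (Fin n) Q) i j ∈ v.P := by
    intro i j
    rw [Matrix.one_apply]
    split_ifs
    · exact v.one_mem
    · exact v.P.zero_mem
  have heYP : ∀ i j, (e * Y) i j ∈ v.P := by
    intro i j
    rw [hY, Matrix.mul_diagonal]
    exact v.mul_mem _ (heP i j) _ v.y_mem
  have hAP : ∀ i j, (1 - e + e * Y) i j ∈ v.P := by
    intro i j
    exact v.P.add_mem (v.P.sub_mem (h1P i j) (heP i j)) (heYP i j)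
  have hYX : v.L (1 - e + e * Y) 0 ≤ v.F (Fin n) := by
    intro x hx
    rw [bd3_mem_L0] at hx
    obtain ⟨z, hz, rfl⟩ := hx
    rw [bd3_mem_F]
    exact bd3_vecMul_mem v _ hAP hz
  -- the range
  have hpp : ∀ c : Fin n → T, Matrix.vecMul (Matrix.vecMul c p) p = Matrix.vecMul c p := by
    intro c
    rw [Matrix.vecMul_vecMul, hp]
  have hM : FGP T (LinearMap.range (Matrix.vecMulLinear p)) := by
    refine ⟨inferInstance, ?_⟩
    refine Module.Projective.of_split (LinearMap.range (Matrix.vecMulLinear p)).subtype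
      (Matrix.vecMulLinear p).rangeRestrict ?_
    ext ⟨x, c, hc⟩ i
    have : Matrix.vecMul x p = x := by
      rw [← hc]
      exact hpp c
    exact congrFun this i
  let f : v.F (Fin n) →ₗ[T] (LinearMap.range (Matrix.vecMulLinear p)) :=
    (Matrix.vecMulLinear p).rangeRestrict ∘ₗ
      (LinearMap.pi fun i : Fin n => v.ev ∘ₗ LinearMap.proj i) ∘ₗ (v.F (Fin n)).subtype
  have hfx : ∀ x : v.F (Fin n), ((f x : LinearMap.range (Matrix.vecMulLinear p)) : Fin n → T) =
      Matrix.vecMul (fun i => v.ev ((x : Fin n → Q) i)) p := fun _ => rfl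
  have hf : Function.Surjective f := by
    rintro ⟨x, c, hc⟩
    refine ⟨⟨fun i => c i • (1 : Q), ?_⟩, ?_⟩
    · rw [bd3_mem_F]
      exact fun i => hsm (c i)
    · apply Subtype.ext
      rw [hfx]
      refine Eq.trans ?_ hc
      simp only [bd3_ev_smul_one]
      rfl
  have hk : ∀ x : v.F (Fin n), f x = 0 ↔ (x : Fin n → Q) ∈ v.L (1 - e + e * Y) 0 := by
    intro x
    have hx0 := (bd3_mem_F v (x : Fin n → Q)).mp x.2
    have hev : ∀ (z : Fin n → Q), (∀ i, z i ∈ v.P) → ∀ j,
        v.ev (Matrix.vecMul z e j) = Matrix.vecMul (fun i => v.ev (z i)) p j := by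
      intro z hz j
      rw [bd3_ev_vecMul v _ heP hz]
      simp only [Matrix.vecMul, dotProduct]
      apply Finset.sum_congr rfl
      intro i _
      show v.ev (z i) * v.ev (p i j • (1 : Q)) = _
      rw [bd3_ev_smul_one]
    rw [bd3_mem_L0]
    constructor
    · intro h
      have h0 : Matrix.vecMul (fun i => v.ev ((x : Fin n → Q) i)) p = 0 := by
        rw [← hfx, h]
        rfl
      have h1 : ∀ j, ∃ b ∈ v.P, Matrix.vecMul (x : Fin n → Q) e j = b * v.y := by
        intro j
        apply v.ev_ker _ (bd3_vecMul_mem v _ heP hx0 j)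
        rw [hev _ hx0, h0]
        rfl
      choose z hzP hz using h1
      have hzY : Matrix.vecMul z Y = Matrix.vecMul (x : Fin n → Q) e := by
        funext j
        rw [hY, Matrix.vecMul_diagonal, hz j]
      have hze : Matrix.vecMul z e = z := by
        have h2 : Matrix.vecMul (Matrix.vecMul z e) Y = Matrix.vecMul z Y := by
          rw [Matrix.vecMul_vecMul, ← hYc, ← Matrix.vecMul_vecMul, hzY, Matrix.vecMul_vecMul, hee]
        have h3 := congrArg (fun u => Matrix.vecMul u Yi) h2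
        simp only [Matrix.vecMul_vecMul, mul_assoc, hYYi, mul_one, Matrix.vecMul_one] at h3
        exact h3
      refine ⟨Matrix.vecMul (x : Fin n → Q) (1 - e) + z, ?_, ?_⟩
      · intro i
        apply v.P.add_mem _ (hzP i)
        exact bd3_vecMul_mem v _ (fun i j => v.P.sub_mem (h1P i j) (heP i j)) hx0 i
      · rw [Matrix.add_vecMul, Matrix.vecMul_vecMul]
        have h4 : (1 - e) * (1 - e + e * Y) = 1 - e := by
          calc (1 - e) * (1 - e + e * Y) = 1 - e - e + e * e + e * Y - (e * e) * Y := by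
                noncomm_ring
            _ = 1 - e := by rw [hee]; abel
        have h5 : Matrix.vecMul z (1 - e + e * Y) = Matrix.vecMul (x : Fin n → Q) e := by
          rw [Matrix.vecMul_add, Matrix.vecMul_sub, Matrix.vecMul_one, hze, sub_self, zero_add,
            ← Matrix.vecMul_vecMul, hze, hzY]
        rw [h4, h5, Matrix.vecMul_sub, Matrix.vecMul_one]
        abel
    · rintro ⟨z, hz, hzx⟩
      apply Subtype.ext
      rw [hfx]
      have h6 : (fun i => v.ev ((x : Fin n → Q) i)) =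
          (fun i => v.ev (z i)) - Matrix.vecMul (fun i => v.ev (z i)) p := by
        funext j
        have h7 : (x : Fin n → Q) j =
            z j - Matrix.vecMul z e j + Matrix.vecMul z e j * v.y := by
          rw [← hzx, Matrix.vecMul_add, Matrix.vecMul_sub, Matrix.vecMul_one,
            ← Matrix.vecMul_vecMul, hY]
          simp only [Pi.add_apply, Pi.sub_apply, Matrix.vecMul_diagonal]
        rw [h7, map_add, map_sub, v.ev_mul _ (bd3_vecMul_mem v _ heP hz j) _ v.y_mem, v.ev_y,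
          mul_zero, add_zero, hev _ hz]
        rfl
      rw [h6, Matrix.sub_vecMul, hpp, sub_self]
      rfl
  exact (ind_quot D hYX hM f hf hk).2

end Bd3

end Pool.Agent.Ind
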