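import Pool.Agent.Lib.MP_8f66f0_al_Ind.K0
import Pool.Agent.Lib.MP_8f66f0_al_Ind.Bd2
import Pool.Agent.Lib.MP_8f66f0_al_Ind.Bd3

/-! Finitely generated projective modules over `T` are stably free if the `K_1`-like invariants of
`Q` vanish on the elementary invertible matrices. (helper69) -/

set_option autoImplicit false

namespace Pool.Agent.Ind

open Pool.Agent.Wald Matrix

section Bd
variable {T Q : Type} [Ring T] [Ring Q] [Module T Q] [IsScalarTower T Q Q] (v : Val T Q)

/-- A finitely generated projective module is the range of an idempotent matrix. -/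
private theorem psf_idem (P : Type) [AddCommGroup P] [Module T P] [Module.Finite T P]
    [Module.Projective T P] : ∃ (n : ℕ) (p : Matrix (Fin n) (Fin n) T), p * p = p ∧
      Nonempty (P ≃ₗ[T] LinearMap.range (Matrix.vecMulLinear p)) := by
  obtain ⟨n, π, hπ⟩ := Module.Finite.exists_fin' T P
  obtain ⟨s, hs⟩ := Module.projective_lifting_property π LinearMap.id hπ
  have hs' : ∀ x, π (s x) = x := fun x => LinearMap.congr_fun hs x
  let p : Matrix (Fin n) (Fin n) T := Matrix.of fun i j => s (π (Pi.single i 1)) j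
  have hp : ∀ x, Matrix.vecMul x p = s (π x) := by
    intro x
    have h1 : x = ∑ i, x i • (Pi.single i 1 : Fin n → T) := by
      ext j
      rw [Finset.sum_apply, Finset.sum_eq_single j]
      · rw [Pi.smul_apply, Pi.single_eq_same, smul_eq_mul, mul_one]
      · intro i _ hij
        rw [Pi.smul_apply, Pi.single_eq_of_ne hij.symm, smul_zero]
      · intro h
        exact absurd (Finset.mem_univ j) h
    have h2 : s (π x) = ∑ i, x i • s (π (Pi.single i 1)) := by
      conv_lhs => rw [h1]
      rw [map_sum, map_sum]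
      apply Finset.sum_congr rfl
      intro i _
      rw [map_smul, map_smul]
    rw [h2]
    ext j
    rw [Finset.sum_apply]
    simp only [Matrix.vecMul, dotProduct, p, Matrix.of_apply, Pi.smul_apply, smul_eq_mul]
  have hinj : Function.Injective s := by
    intro a b hab
    rw [← hs' a, ← hs' b, hab]
  have hrange : LinearMap.range (Matrix.vecMulLinear p) = LinearMap.range s := by
    ext y
    constructor
    · rintro ⟨x, rfl⟩
      exact ⟨π x, (hp x).symm⟩
    · rintro ⟨x, rfl⟩
      refine ⟨s x, ?_⟩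
      change Matrix.vecMul (s x) p = s x
      rw [hp, hs']
  refine ⟨n, p, ?_, ⟨?_⟩⟩
  · ext i j
    have h3 : Matrix.vecMul (Matrix.vecMul (Pi.single i 1) p) p =
        Matrix.vecMul (Pi.single i 1) p := by
      rw [hp, hp, hs']
    rw [Matrix.vecMul_vecMul, Matrix.single_one_vecMul, Matrix.single_one_vecMul] at h3
    exact congrFun h3 j
  · rw [hrange]
    exact LinearEquiv.ofInjective s hinj

private theorem psf_unit {w wi : Q} (h : w * wi = 1) (h' : wi * w = 1) :
    IsUnit (Matrix.of fun _ _ : Fin 1 => w) := by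
  have key : ∀ a b : Q, a * b = 1 →
      (Matrix.of fun _ _ : Fin 1 => a) * (Matrix.of fun _ _ : Fin 1 => b) = 1 := by
    intro a b hab
    ext i j
    rw [Matrix.mul_apply]
    simp only [Matrix.of_apply, Finset.univ_unique, Finset.sum_singleton, hab]
    rw [Subsingleton.elim i j, Matrix.one_apply_eq]
  exact ⟨⟨_, _, key w wi h, key wi w h'⟩, rfl⟩

theorem projSF_of_val (h : ∀ (K : Type) [CommGroup K] (κ : K1Fun Q K),
    κ.f (Matrix.of fun _ _ : Fin 1 => v.y) = 1 →
    (∀ w wi : Q, w ∈ v.P → wi ∈ v.P → w * wi = 1 → wi * w = 1 →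
      κ.f (Matrix.of fun _ _ : Fin 1 => w) = 1) →
    ∀ (n : ℕ) (p : Matrix (Fin n) (Fin n) T), p * p = p →
      κ.f (1 - up T Q p + (up T Q p).map fun q => q * v.y) = 1) : ProjSF T := by
  intro P _ _ _ _
  obtain ⟨D⟩ := exists_k0 T
  obtain ⟨κ, hκ⟩ := exists_index v D
  obtain ⟨n, p, hp, ⟨e⟩⟩ := psf_idem (T := T) P
  have h1 := h D.K κ (by
    rw [hκ (Fin 1) _ 0 (psf_unit v.y_yi v.yi_y) (by
      intro i j
      rw [Matrix.of_apply, pow_zero, mul_one]
      exact v.y_mem)]
    exact index_y v D) (by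
    intro w wi hw hwi hww hww'
    rw [hκ (Fin 1) _ 0 (psf_unit hww hww') (by
      intro i j
      rw [Matrix.of_apply, pow_zero, mul_one]
      exact hw)]
    exact index_unit v D hw hwi hww hww') n p hp
  obtain ⟨h2, h3⟩ := index_idem v D p hp
  rw [hκ (Fin n) _ 0 h3 (by
    intro i j
    rw [pow_zero, mul_one, Matrix.add_apply, Matrix.sub_apply, Matrix.map_apply]
    unfold up
    rw [Matrix.map_apply]
    refine v.P.add_mem (v.P.sub_mem ?_ (v.P.smul_mem _ v.one_mem))
      (v.mul_mem _ (v.P.smul_mem _ v.one_mem) _ v.y_mem)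
    rw [Matrix.one_apply]
    split_ifs
    · exact v.one_mem
    · exact v.P.zero_mem), h2] at h1
  have hFGP : FGP T (LinearMap.range (Matrix.vecMulLinear p)) :=
    ⟨Module.Finite.equiv e, Module.Projective.of_equiv e⟩
  obtain ⟨a, b, ⟨f⟩⟩ := D.cls_one _ hFGP h1
  exact ⟨a, b, ⟨(LinearEquiv.prodCongr e (LinearEquiv.refl T (Fin a → T))).trans f⟩⟩

end Bd

end Pool.Agent.Ind
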