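import Pool.Agent.Lib.MP_8f66f0_al_Ind.Defs
import Pool.Agent.Lib.MP_8f66f0_al_Wald.K1Lem

/-! The Whitehead group of the trivial group with Euclidean coefficients. -/

set_option autoImplicit false

namespace Pool.Agent.Ind

open Pool.Agent.Wald Matrix

/-- The pull back of an invariant along a ring homomorphism. -/
private def onePull {Λ Λ' : Type} [Ring Λ] [Ring Λ'] (φ : Λ →+* Λ') {K : Type} [CommGroup K]
    (κ : K1Fun Λ' K) : K1Fun Λ K where
  f := fun {n} _ _ A => κ.f (A.map φ)
  mul := fun {n} _ _ A B hA hB => by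
    rw [Matrix.map_mul]
    exact κ.mul _ _ (hA.map φ.mapMatrix) (hB.map φ.mapMatrix)
  reindex := fun {n m} _ _ _ _ e A hA => by
    have h := κ.reindex e (A.map φ) (hA.map φ.mapMatrix)
    exact h
  tri := fun {n m} _ _ _ _ A B D hA hD => by
    rw [Matrix.fromBlocks_map, Matrix.map_zero _ (map_zero φ)]
    exact κ.tri _ _ _ (hA.map φ.mapMatrix) (hD.map φ.mapMatrix)

private theorem one_isUnit_transv {L : Type} [CommRing L] {m : ℕ} {i j : Fin m} (hij : i ≠ j)
    (c : L) : IsUnit (transvection i j c) := by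
  rw [Matrix.isUnit_iff_isUnit_det, det_transvection_of_ne i j hij c]
  exact isUnit_one

private theorem one_transv {L K : Type} [CommRing L] [CommGroup K] (κ : K1Fun L K) {m : ℕ}
    {i j : Fin m} (hij : i ≠ j) (c : L) : κ.f (transvection i j c) = 1 := by
  classical
  set e : {k : Fin m // k ≠ j} ⊕ {k : Fin m // ¬ k ≠ j} ≃ Fin m :=
    Equiv.sumCompl (fun k : Fin m => k ≠ j) with he
  set M := (transvection i j c).submatrix e e with hM
  have e1 : ∀ k, e (Sum.inl k) = k := fun k => rfl
  have e2 : ∀ k, e (Sum.inr k) = k := fun k => rfl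
  have hent : ∀ a b : Fin m, transvection i j c a b =
      (1 : Matrix (Fin m) (Fin m) L) a b + if i = a ∧ j = b then c else 0 := by
    intro a b
    rw [transvection, Matrix.add_apply, Matrix.single_apply]
  have h1 : M.toBlocks₁₁ = 1 := by
    ext a b
    change transvection i j c a.1 b.1 = _
    rw [hent, if_neg (fun h => b.2 h.2.symm), add_zero, Matrix.one_apply, Matrix.one_apply]
    simp only [Subtype.ext_iff]
  have h2 : M.toBlocks₂₁ = 0 := by
    ext a b
    change transvection i j c a.1 b.1 = _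
    have ha : a.1 = j := not_not.1 a.2
    rw [hent, if_neg (fun h => b.2 h.2.symm), add_zero, ha, Matrix.one_apply_ne (Ne.symm b.2)]
    rfl
  have h3 : M.toBlocks₂₂ = 1 := by
    ext a b
    change transvection i j c a.1 b.1 = _
    have ha : a.1 = j := not_not.1 a.2
    have hb : b.1 = j := not_not.1 b.2
    have hab : a = b := Subtype.ext (ha.trans hb.symm)
    rw [hent, hab, Matrix.one_apply_eq, Matrix.one_apply_eq, hb,
      if_neg (fun h => hij h.1), add_zero]
  have h4 : M = fromBlocks 1 M.toBlocks₁₂ 0 1 := by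
    conv_lhs => rw [← fromBlocks_toBlocks M, h1, h2, h3]
  have h5 : M.submatrix e.symm e.symm = transvection i j c := by
    rw [hM, Matrix.submatrix_submatrix]
    simp
  have h6 : IsUnit M := by
    rw [h4]
    exact K1Fun.isUnit_tri _ isUnit_one isUnit_one
  rw [← h5, κ.reindex e M h6, h4, κ.tri _ _ _ isUnit_one isUnit_one, κ.f_one, κ.f_one, mul_one]

private theorem one_main {L K : Type} [CommRing L] [IsDomain L] [CommGroup K] (h : IsEuc L)
    (κ : K1Fun L K) (hκ : ∀ u : Lˣ, κ.f (Matrix.of fun _ _ : Fin 1 => (u : L)) = 1) (n : ℕ) :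
    ∀ A : Matrix (Fin n) (Fin n) L, IsUnit A → κ.f A = 1 := by
  classical
  induction n with
  | zero =>
    intro A _
    have hA : A = 1 := by
      ext i
      exact i.elim0
    rw [hA]
    exact κ.f_one
  | succ n ih =>
    intro A hA
    obtain ⟨N, hN⟩ := h
    set N' : L → ℕ := fun x => if x = 0 then 0 else N x + 1 with hN'
    set μ : Matrix (Fin (n + 1)) (Fin (n + 1)) L → ℕ := fun B => ∑ j, N' (B 0 j) with hμ
    have hex : ∃ s, ∃ B : Matrix (Fin (n + 1)) (Fin (n + 1)) L,
        IsUnit B ∧ κ.f B = κ.f A ∧ μ B = s := ⟨_, A, hA, rfl, rfl⟩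
    obtain ⟨B, hB, hBA, hBs⟩ := Nat.find_spec hex
    have hmin : ∀ C, IsUnit C → κ.f C = κ.f A → μ B ≤ μ C := fun C hC hCA => by
      rw [hBs]
      exact Nat.find_min' hex ⟨C, hC, hCA, rfl⟩
    have hop : ∀ (C : Matrix (Fin (n + 1)) (Fin (n + 1)) L) (i j : Fin (n + 1)) (c : L), i ≠ j →
        IsUnit C → κ.f C = κ.f A → IsUnit (C * transvection i j c) ∧
          κ.f (C * transvection i j c) = κ.f A := by
      intro C i j c hij hC hCA
      refine ⟨hC.mul (one_isUnit_transv hij c), ?_⟩
      rw [κ.mul _ _ hC (one_isUnit_transv hij c), one_transv κ hij, mul_one, hCA]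
    -- at most one entry of the first row is nonzero
    have huniq1 : ∀ i j, i ≠ j → B 0 i ≠ 0 → B 0 j ≠ 0 → N (B 0 j) ≤ N (B 0 i) → False := by
      intro i j hij hi hj hle
      obtain ⟨q, r, hqr, hr⟩ := hN (B 0 i) (B 0 j) hj
      obtain ⟨hC1, hC2⟩ := hop B j i (-q) hij.symm hB hBA
      have h1 := hmin _ hC1 hC2
      have e1 : (B * transvection j i (-q)) 0 i = r := by
        rw [mul_transvection_apply_same, hqr]
        ring
      have e2 : ∀ b, b ≠ i → (B * transvection j i (-q)) 0 b = B 0 b := fun b hb =>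
        mul_transvection_apply_of_ne _ _ _ _ hb _ _
      have hlt : N' r < N' (B 0 i) := by
        simp only [hN']
        rw [if_neg hi]
        split_ifs with hr0
        · omega
        · rcases hr with h | h
          · exact absurd h hr0
          · omega
      have h2 : μ (B * transvection j i (-q)) < μ B := by
        apply Finset.sum_lt_sum
        · intro b _
          by_cases hb : b = i
          · rw [hb, e1]
            exact hlt.le
          · rw [e2 b hb]
        · exact ⟨i, Finset.mem_univ i, by rw [e1]; exact hlt⟩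
      omega
    have huniq : ∀ i j, i ≠ j → B 0 i ≠ 0 → B 0 j = 0 := by
      intro i j hij hi
      by_contra hj
      rcases le_total (N (B 0 j)) (N (B 0 i)) with hle | hle
      · exact huniq1 i j hij hi hj hle
      · exact huniq1 j i hij.symm hj hi hle
    -- the first row of an invertible matrix is not zero
    have hne : ∃ j, B 0 j ≠ 0 := by
      by_contra hcon
      push Not at hcon
      obtain ⟨U, hU⟩ := hB
      have h1 : (B * ((U⁻¹ : (Matrix (Fin (n + 1)) (Fin (n + 1)) L)ˣ) :
          Matrix (Fin (n + 1)) (Fin (n + 1)) L)) 0 0 = 1 := by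
        rw [← hU, U.mul_inv, Matrix.one_apply_eq]
      rw [Matrix.mul_apply] at h1
      simp only [hcon, zero_mul, Finset.sum_const_zero] at h1
      exact zero_ne_one h1
    obtain ⟨j, hj⟩ := hne
    have hrow : ∀ b, b ≠ j → B 0 b = 0 := fun b hb => huniq j b (Ne.symm hb) hj
    -- move the entry to the corner
    obtain ⟨C, hC, hCA, hC0⟩ : ∃ C : Matrix (Fin (n + 1)) (Fin (n + 1)) L, IsUnit C ∧
        κ.f C = κ.f A ∧ ∀ b, b ≠ 0 → C 0 b = 0 := by
      by_cases hj0 : j = 0
      · exact ⟨B, hB, hBA, fun b hb => hrow b (by rw [hj0]; exact hb)⟩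
      · obtain ⟨h1, h2⟩ := hop B j 0 1 hj0 hB hBA
        obtain ⟨h3, h4⟩ := hop _ 0 j (-1) (Ne.symm hj0) h1 h2
        refine ⟨_, h3, h4, fun b hb => ?_⟩
        have e1 : (B * transvection j 0 (1 : L)) 0 0 = B 0 j := by
          rw [mul_transvection_apply_same, hrow 0 (Ne.symm hj0), zero_add, one_mul]
        by_cases hbj : b = j
        · rw [hbj, mul_transvection_apply_same, e1,
            mul_transvection_apply_of_ne _ _ _ _ hj0]
          ring
        · rw [mul_transvection_apply_of_ne _ _ _ _ hbj,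
            mul_transvection_apply_of_ne _ _ _ _ hb]
          exact hrow b hbj
    -- block form
    set e : Fin 1 ⊕ Fin n ≃ Fin (n + 1) :=
      finSumFinEquiv.trans (finCongr (Nat.add_comm 1 n)) with he
    have e1 : ∀ k, e (Sum.inl k) = 0 := by
      intro k
      apply Fin.ext
      simp [he]
    have e2 : ∀ k, e (Sum.inr k) ≠ 0 := by
      intro k h
      have := congrArg Fin.val h
      simp [he] at this
    set M := C.submatrix e e with hM
    have hMu : IsUnit M := by
      rw [Matrix.isUnit_iff_isUnit_det] at hC ⊢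
      rw [hM, Matrix.det_submatrix_equiv_self]
      exact hC
    have h12 : M.toBlocks₁₂ = 0 := by
      ext a b
      change C (e (Sum.inl a)) (e (Sum.inr b)) = 0
      rw [e1]
      exact hC0 _ (e2 b)
    have hMf : M = fromBlocks M.toBlocks₁₁ 0 M.toBlocks₂₁ M.toBlocks₂₂ := by
      conv_lhs => rw [← fromBlocks_toBlocks M, h12]
    have hdet : IsUnit (M.toBlocks₁₁.det * M.toBlocks₂₂.det) := by
      rw [← Matrix.det_fromBlocks_zero₁₂ M.toBlocks₁₁ M.toBlocks₂₁ M.toBlocks₂₂, ← hMf]
      rw [Matrix.isUnit_iff_isUnit_det] at hMu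
      exact hMu
    have hu11 : IsUnit M.toBlocks₁₁.det := isUnit_of_mul_isUnit_left hdet
    have hu22 : IsUnit M.toBlocks₂₂.det := isUnit_of_mul_isUnit_right hdet
    have hM11 : κ.f M.toBlocks₁₁ = 1 := by
      rw [Matrix.det_fin_one] at hu11
      obtain ⟨u, hu⟩ := hu11
      have : M.toBlocks₁₁ = Matrix.of fun _ _ : Fin 1 => (u : L) := by
        ext a b
        rw [Subsingleton.elim a 0, Subsingleton.elim b 0, ← hu]
        rfl
      rw [this]
      exact hκ u
    have hM22 : κ.f M.toBlocks₂₂ = 1 := ih _ ((Matrix.isUnit_iff_isUnit_det _).2 hu22)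
    have hMC : M.submatrix e.symm e.symm = C := by
      rw [hM, Matrix.submatrix_submatrix]
      simp
    rw [← hCA, ← hMC, κ.reindex e M hMu, hMf,
      K1Fun.lower κ _ _ _ ((Matrix.isUnit_iff_isUnit_det _).2 hu11)
        ((Matrix.isUnit_iff_isUnit_det _).2 hu22), hM11, hM22, mul_one]

theorem whTL_one {L : Type} [CommRing L] [IsDomain L] (h : IsEuc L) (G : Type) [Group G]
    [Subsingleton G] : WhTL L G := by
  intro K _ κ hκ n _ _ A hA
  -- the ring isomorphism
  set ι : L →+* MonoidAlgebra L G := MonoidAlgebra.singleOneRingHom with hι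
  have hιs : ∀ x : MonoidAlgebra L G, ι (x.coeff 1) = x := by
    intro x
    induction x using MonoidAlgebra.induction_linear with
    | zero => rw [MonoidAlgebra.coeff_zero, Finsupp.zero_apply, map_zero]
    | add x y hx hy =>
      rw [MonoidAlgebra.coeff_add, Finsupp.add_apply, map_add, hx, hy]
    | single g r =>
      rw [Subsingleton.elim g 1, MonoidAlgebra.coeff_single, Finsupp.single_eq_same]
      rfl
  have hinj : Function.Injective ι := by
    intro a b hab
    have h1 := congrArg (fun x : MonoidAlgebra L G => x.coeff 1) hab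
    change (MonoidAlgebra.single (1 : G) a).coeff 1 = (MonoidAlgebra.single (1 : G) b).coeff 1
      at h1
    rwa [MonoidAlgebra.coeff_single, MonoidAlgebra.coeff_single, Finsupp.single_eq_same,
      Finsupp.single_eq_same] at h1
  set e : L ≃+* MonoidAlgebra L G :=
    RingEquiv.ofBijective ι ⟨hinj, fun x => ⟨_, hιs x⟩⟩ with he
  have hκ' : ∀ u : Lˣ, (onePull e.toRingHom κ).f (Matrix.of fun _ _ : Fin 1 => (u : L)) = 1 := by
    intro u
    exact hκ 1 u
  set A' : Matrix n n L := A.map e.symm.toRingHom with hA'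
  have hA'u : IsUnit A' := hA.map e.symm.toRingHom.mapMatrix
  have hAA : A'.map e.toRingHom = A := by
    apply Matrix.ext
    intro i j
    exact e.apply_symm_apply (A i j)
  set E := Fintype.equivFin n with hE
  have h1 := one_main h (onePull e.toRingHom κ) hκ' (Fintype.card n)
    (A'.submatrix E.symm E.symm) (K1Fun.isUnit_submatrix E hA'u)
  rw [(onePull e.toRingHom κ).reindex E A' hA'u] at h1
  have h2 : (onePull e.toRingHom κ).f A' = κ.f (A'.map e.toRingHom) := rfl
  rw [h2, hAA] at h1
  exact h1

theorem whTL_int (G : Type) [Group G] : WhTL ℤ G ↔ WhT G := Iff.rfl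

end Pool.Agent.Ind
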