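import Pool.Agent.Lib.MP_8f66f0_al_Ind.Rel

set_option autoImplicit false

namespace Pool.Agent.Ind

open Pool.Agent.Wald Matrix

section Bd

variable {T Q : Type} [Ring T] [Ring Q] [Module T Q] [IsScalarTower T Q Q] (v : Val T Q)

/-! ### Powers of `y` -/

theorem bd1a_pow_mem (k : ℕ) : v.y ^ k ∈ v.P := by
  induction k with
  | zero => rw [pow_zero]; exact v.one_mem
  | succ k ih => rw [pow_succ]; exact v.mul_mem _ ih _ v.y_mem

theorem bd1a_comm (k : ℕ) (q : Q) : v.y ^ k * q = q * v.y ^ k :=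
  ((show Commute v.y q from v.y_comm q).pow_left k).eq

theorem bd1a_comm' (k : ℕ) (q : Q) : v.yi ^ k * q = q * v.yi ^ k := by
  have h : Commute v.yi q := by
    show v.yi * q = q * v.yi
    calc v.yi * q = v.yi * q * (v.y * v.yi) := by rw [v.y_yi, mul_one]
      _ = v.yi * (q * v.y) * v.yi := by simp only [mul_assoc]
      _ = v.yi * (v.y * q) * v.yi := by rw [v.y_comm]
      _ = (v.yi * v.y) * q * v.yi := by simp only [mul_assoc]
      _ = q * v.yi := by rw [v.yi_y, one_mul]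
  exact (h.pow_left k).eq

theorem bd1a_y_yi_pow (k : ℕ) : v.y ^ k * v.yi ^ k = 1 := by
  rw [← (show Commute v.y v.yi from v.y_comm v.yi).mul_pow, v.y_yi, one_pow]

theorem bd1a_yi_y_pow (k : ℕ) : v.yi ^ k * v.y ^ k = 1 := by
  rw [bd1a_comm' v, bd1a_y_yi_pow v]

theorem bd1a_mono {q : Q} {k m : ℕ} (h : q * v.y ^ k ∈ v.P) (hkm : k ≤ m) :
    q * v.y ^ m ∈ v.P := by
  obtain ⟨d, rfl⟩ := Nat.exists_eq_add_of_le hkm
  rw [pow_add, ← mul_assoc]
  exact v.mul_mem _ h _ (bd1a_pow_mem v d)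

theorem exists_pow {n : Type} [Fintype n] (A : Matrix n n Q) :
    ∃ m0 : ℕ, ∀ m, m0 ≤ m → ∀ i j, A i j * v.y ^ m ∈ v.P := by
  classical
  choose f hf using fun ij : n × n => v.exh (A ij.1 ij.2)
  refine ⟨Finset.univ.sup f, fun m hm i j => ?_⟩
  exact bd1a_mono v (hf (i, j)) ((Finset.le_sup (Finset.mem_univ (i, j))).trans hm)

/-! ### Matrices -/

/-- Scalar matrices. -/
abbrev bd1a_dg (n : Type) [DecidableEq n] {Q : Type} [Ring Q] (c : Q) : Matrix n n Q :=
  diagonal fun _ => c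

theorem bd1a_map_mul {n m : Type} [Fintype m] [DecidableEq m] (A : Matrix n m Q) (c : Q) :
    (A.map fun q => q * c) = A * bd1a_dg m c := by
  ext i j
  rw [bd1a_dg, mul_diagonal, map_apply]

theorem bd1a_diag_comm {n m : Type} [Fintype n] [Fintype m] [DecidableEq n] [DecidableEq m]
    (A : Matrix n m Q) (k : ℕ) :
    bd1a_dg n (v.y ^ k) * A = A * bd1a_dg m (v.y ^ k) := by
  ext i j
  rw [bd1a_dg, bd1a_dg, mul_diagonal, diagonal_mul, bd1a_comm]

theorem bd1a_diag_comm' {n m : Type} [Fintype n] [Fintype m] [DecidableEq n] [DecidableEq m]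
    (A : Matrix n m Q) (k : ℕ) :
    bd1a_dg n (v.yi ^ k) * A = A * bd1a_dg m (v.yi ^ k) := by
  ext i j
  rw [bd1a_dg, bd1a_dg, mul_diagonal, diagonal_mul, bd1a_comm']

theorem bd1a_diag_mul {n : Type} [Fintype n] [DecidableEq n] (k : ℕ) :
    bd1a_dg n (v.y ^ k) * bd1a_dg n (v.yi ^ k) = 1 := by
  rw [bd1a_dg, bd1a_dg, diagonal_mul_diagonal, bd1a_y_yi_pow, diagonal_one]

theorem bd1a_diag_mul' {n : Type} [Fintype n] [DecidableEq n] (k : ℕ) :
    bd1a_dg n (v.yi ^ k) * bd1a_dg n (v.y ^ k) = 1 := by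
  rw [bd1a_dg, bd1a_dg, diagonal_mul_diagonal, bd1a_yi_y_pow, diagonal_one]

/-- The scaled matrix of an invertible matrix has the scaled inverse as inverse. -/
theorem bd1a_inv {n : Type} [Fintype n] [DecidableEq n] {A B : Matrix n n Q} (hAB : A * B = 1)
    (m : ℕ) : (A.map fun q => q * v.y ^ m) * (B.map fun q => q * v.yi ^ m) = 1 := by
  rw [bd1a_map_mul, bd1a_map_mul]
  calc A * bd1a_dg n (v.y ^ m) * (B * bd1a_dg n (v.yi ^ m))
      = A * (bd1a_dg n (v.y ^ m) * B) * bd1a_dg n (v.yi ^ m) := by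
        simp only [Matrix.mul_assoc]
    _ = A * B * (bd1a_dg n (v.y ^ m) * bd1a_dg n (v.yi ^ m)) := by
        rw [bd1a_diag_comm]; simp only [Matrix.mul_assoc]
    _ = 1 := by rw [bd1a_diag_mul, hAB, Matrix.one_mul]

theorem bd1a_inv' {n : Type} [Fintype n] [DecidableEq n] {A B : Matrix n n Q} (hBA : B * A = 1)
    (m : ℕ) : (B.map fun q => q * v.yi ^ m) * (A.map fun q => q * v.y ^ m) = 1 := by
  rw [bd1a_map_mul, bd1a_map_mul]
  calc B * bd1a_dg n (v.yi ^ m) * (A * bd1a_dg n (v.y ^ m))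
      = B * (bd1a_dg n (v.yi ^ m) * A) * bd1a_dg n (v.y ^ m) := by
        simp only [Matrix.mul_assoc]
    _ = B * A * (bd1a_dg n (v.yi ^ m) * bd1a_dg n (v.y ^ m)) := by
        rw [bd1a_diag_comm']; simp only [Matrix.mul_assoc]
    _ = 1 := by rw [bd1a_diag_mul', hBA, Matrix.one_mul]

theorem bd1a_rmul_apply {n m : Type} [Fintype n] (A : Matrix n m Q) (x : n → Q) :
    rmul T A x = Matrix.vecMul x A := rfl

theorem bd1a_rmul_rmul {n m l : Type} [Fintype n] [Fintype m] (A : Matrix n m Q)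
    (B : Matrix m l Q) (x : n → Q) : rmul T B (rmul T A x) = rmul T (A * B) x := by
  simp only [bd1a_rmul_apply, vecMul_vecMul]

theorem bd1a_rmul_one {n : Type} [Fintype n] [DecidableEq n] (x : n → Q) :
    rmul T (1 : Matrix n n Q) x = x := by
  rw [bd1a_rmul_apply, vecMul_one]

/-- Right multiplication by an invertible matrix. -/
def bd1a_equiv (T : Type) {Q : Type} [Ring T] [Ring Q] [Module T Q] [IsScalarTower T Q Q]
    {n : Type} [Fintype n] [DecidableEq n] (A B : Matrix n n Q) (h : A * B = 1) (h' : B * A = 1) :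
    (n → Q) ≃ₗ[T] (n → Q) :=
  LinearEquiv.ofLinearMap (rmul T A) (rmul T B)
    (LinearMap.ext fun x => by
      rw [LinearMap.comp_apply, bd1a_rmul_rmul, h', bd1a_rmul_one]
      rfl)
    (LinearMap.ext fun x => by
      rw [LinearMap.comp_apply, bd1a_rmul_rmul, h, bd1a_rmul_one]
      rfl)

/-! ### The lattice -/

theorem bd1a_mem_F {n : Type} (x : n → Q) : x ∈ v.F n ↔ ∀ i, x i ∈ v.P := by
  unfold Val.F
  rw [Submodule.mem_pi]
  exact ⟨fun h i => h i (Set.mem_univ i), fun h i _ => h i⟩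

theorem bd1a_rmul_mem {n m : Type} [Fintype n] {A : Matrix n m Q} (hA : ∀ i j, A i j ∈ v.P)
    {x : n → Q} (hx : x ∈ v.F n) : rmul T A x ∈ v.F m := by
  rw [bd1a_mem_F] at hx ⊢
  intro j
  rw [bd1a_rmul_apply]
  exact Submodule.sum_mem _ fun i _ => v.mul_mem _ (hx i) _ (hA i j)

theorem bd1a_map_le {n m : Type} [Fintype n] {A : Matrix n m Q} (hA : ∀ i j, A i j ∈ v.P) :
    (v.F n).map (rmul T A) ≤ v.F m := by
  rintro _ ⟨x, hx, rfl⟩
  exact bd1a_rmul_mem v hA hx

theorem bd1a_proj_pi {n : Type} [Fintype n] [DecidableEq n] (M : n → Type)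
    [∀ i, AddCommGroup (M i)] [∀ i, Module T (M i)] (h : ∀ i, Module.Projective T (M i)) :
    Module.Projective T (∀ i, M i) :=
  Module.Projective.of_equiv (DFinsupp.linearEquivFunOnFintype (R := T) (M := M))

/-- `Q^n / P^n` is projective. -/
theorem bd1a_proj {n : Type} [Fintype n] [DecidableEq n] :
    Module.Projective T ((n → Q) ⧸ v.F n) := by
  let f : (n → Q) →ₗ[T] (n → Q ⧸ v.P) := LinearMap.pi fun i => v.P.mkQ ∘ₗ LinearMap.proj i
  have hf : Function.Surjective f := by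
    intro u
    choose x hx using fun i => v.P.mkQ_surjective (u i)
    exact ⟨x, funext fun i => hx i⟩
  have hker : v.F n = LinearMap.ker f := by
    ext x
    rw [LinearMap.mem_ker, bd1a_mem_F]
    constructor
    · intro h
      funext i
      show v.P.mkQ (x i) = 0
      rw [Submodule.mkQ_apply, Submodule.Quotient.mk_eq_zero]
      exact h i
    · intro h i
      have h1 : v.P.mkQ (x i) = 0 := congrFun h i
      rwa [Submodule.mkQ_apply, Submodule.Quotient.mk_eq_zero] at h1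
  have e : ((n → Q) ⧸ v.F n) ≃ₗ[T] (n → Q ⧸ v.P) :=
    (Submodule.quotEquivOfEq _ _ hker).trans (f.quotKerEquivOfSurjective hf)
  have h2 : Module.Projective T (n → Q ⧸ v.P) := bd1a_proj_pi _ fun _ => v.proj
  exact Module.Projective.of_equiv e.symm

/-- `F = G + y F` with a finitely generated `G`. -/
theorem bd1a_fg_one {n : Type} [Fintype n] [DecidableEq n] : ∃ G : Submodule T (n → Q), G.FG ∧
    G ≤ v.F n ∧ ∀ x ∈ v.F n, ∃ g ∈ G, ∃ z ∈ v.F n,
      x = g + rmul T (bd1a_dg n (v.y ^ 1)) z := by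
  refine ⟨Submodule.span T (Set.range fun i : n => (Pi.single i (1 : Q) : n → Q)),
    Submodule.fg_span (Set.finite_range _), ?_, ?_⟩
  · rw [Submodule.span_le]
    rintro _ ⟨i, rfl⟩
    rw [SetLike.mem_coe, bd1a_mem_F]
    intro j
    show (Pi.single i (1 : Q) : n → Q) j ∈ v.P
    by_cases hij : j = i
    · subst hij
      rw [Pi.single_eq_same]
      exact v.one_mem
    · rw [Pi.single_eq_of_ne hij]
      exact v.P.zero_mem
  · intro x hx
    rw [bd1a_mem_F] at hx
    have h1 : ∀ i, ∃ b ∈ v.P, x i - v.ev (x i) • (1 : Q) = b * v.y := by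
      intro i
      refine v.ev_ker _ (v.P.sub_mem (hx i) (v.P.smul_mem _ v.one_mem)) ?_
      rw [map_sub, map_smul, v.ev_one, smul_eq_mul, mul_one, sub_self]
    choose b hb hb2 using h1
    refine ⟨∑ i, v.ev (x i) • (Pi.single i (1 : Q) : n → Q), ?_, b, (bd1a_mem_F v b).2 hb, ?_⟩
    · exact Submodule.sum_mem _ fun i _ =>
        Submodule.smul_mem _ _ (Submodule.subset_span ⟨i, rfl⟩)
    · funext j
      rw [bd1a_rmul_apply, Pi.add_apply, vecMul_diagonal, pow_one, ← hb2 j, Finset.sum_apply]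
      have h3 : ∑ i, (v.ev (x i) • (Pi.single i (1 : Q) : n → Q)) j = v.ev (x j) • (1 : Q) := by
        rw [Finset.sum_eq_single j]
        · rw [Pi.smul_apply, Pi.single_eq_same]
        · intro i _ hij
          rw [Pi.smul_apply, Pi.single_eq_of_ne (Ne.symm hij), smul_zero]
        · intro h
          exact absurd (Finset.mem_univ j) h
      rw [h3]
      abel

/-- `F = G + y^k F` with a finitely generated `G`. -/
theorem bd1a_fg {n : Type} [Fintype n] [DecidableEq n] (k : ℕ) : ∃ G : Submodule T (n → Q),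
    G.FG ∧ G ≤ v.F n ∧ ∀ x ∈ v.F n, ∃ g ∈ G, ∃ z ∈ v.F n,
      x = g + rmul T (bd1a_dg n (v.y ^ k)) z := by
  induction k with
  | zero =>
    refine ⟨⊥, Submodule.fg_bot, bot_le, fun x hx => ⟨0, Submodule.zero_mem _, x, hx, ?_⟩⟩
    simp only [pow_zero, diagonal_one, bd1a_rmul_one, zero_add]
  | succ k ih =>
    obtain ⟨G, hG, hGF, h⟩ := ih
    obtain ⟨G1, hG1, hGF1, h1⟩ := bd1a_fg_one v (n := n)
    have hD : ∀ i j : n, (bd1a_dg n (v.y ^ k)) i j ∈ v.P := by
      intro i j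
      by_cases hij : i = j
      · subst hij
        rw [bd1a_dg, diagonal_apply_eq]
        exact bd1a_pow_mem v k
      · rw [bd1a_dg, diagonal_apply_ne _ hij]
        exact v.P.zero_mem
    refine ⟨G ⊔ G1.map (rmul T (bd1a_dg n (v.y ^ k))), hG.sup (hG1.map _),
      sup_le hGF ((Submodule.map_mono hGF1).trans (bd1a_map_le v hD)), fun x hx => ?_⟩
    obtain ⟨g, hg, z, hz, rfl⟩ := h x hx
    obtain ⟨g1, hg1, z1, hz1, rfl⟩ := h1 z hz
    refine ⟨g + rmul T (bd1a_dg n (v.y ^ k)) g1, Submodule.add_mem_sup hg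
      (Submodule.mem_map_of_mem hg1), z1, hz1, ?_⟩
    rw [map_add, bd1a_rmul_rmul, diagonal_mul_diagonal, add_assoc]
    have h2 : (fun i : n => v.y ^ 1 * v.y ^ k) = fun _ => v.y ^ (k + 1) := by
      funext _
      rw [← pow_add, Nat.add_comm]
    rw [h2]

theorem fpq_L {n : Type} [Fintype n] [DecidableEq n] {A : Matrix n n Q} (hA : IsUnit A) {m : ℕ}
    (hm : ∀ i j, A i j * v.y ^ m ∈ v.P) : FPq (v.F n) (v.L A m) := by
  obtain ⟨B, hAB, hBA⟩ : ∃ B : Matrix n n Q, A * B = 1 ∧ B * A = 1 :=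
    ⟨(hA.unit⁻¹ : (Matrix n n Q)ˣ), hA.mul_val_inv, hA.val_inv_mul⟩
  set A' : Matrix n n Q := A.map fun q => q * v.y ^ m with hA'
  set B' : Matrix n n Q := B.map fun q => q * v.yi ^ m with hB'
  have h1 : A' * B' = 1 := bd1a_inv v hAB m
  have h2 : B' * A' = 1 := bd1a_inv' v hBA m
  let e := bd1a_equiv T A' B' h1 h2
  have hle : (v.F n).map (rmul T A') ≤ v.F n := bd1a_map_le v (fun i j => hm i j)
  show FPq (v.F n) ((v.F n).map (rmul T A'))
  refine ⟨hle, ?_⟩
  set Y : Submodule T (n → Q) := (v.F n).map (rmul T A') with hY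
  have hp1 : Module.Projective T ((n → Q) ⧸ v.F n) := bd1a_proj v
  have hp2 : Module.Projective T ((n → Q) ⧸ Y) :=
    Module.Projective.of_equiv (Submodule.Quotient.equiv (v.F n) Y e rfl)
  set X : Submodule T ((n → Q) ⧸ Y) := (v.F n).map Y.mkQ with hX
  have hp3 : Module.Projective T (((n → Q) ⧸ Y) ⧸ X) :=
    Module.Projective.of_equiv (Submodule.quotientQuotientEquivQuotient Y (v.F n) hle).symm
  have hfin : X.FG := by
    obtain ⟨k, hk⟩ := exists_pow v B'
    obtain ⟨G, hG, hGF, h⟩ := bd1a_fg v (n := n) k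
    have hXG : X = G.map Y.mkQ := by
      apply le_antisymm
      · rintro _ ⟨x, hx, rfl⟩
        obtain ⟨g, hg, z, hz, rfl⟩ := h x hx
        have h3 : rmul T (bd1a_dg n (v.y ^ k)) z ∈ Y := by
          refine ⟨rmul T (B'.map fun q => q * v.y ^ k) z,
            bd1a_rmul_mem v (fun i j => hk k le_rfl i j) hz, ?_⟩
          rw [bd1a_rmul_rmul, bd1a_map_mul, Matrix.mul_assoc, bd1a_diag_comm, ← Matrix.mul_assoc,
            h2, Matrix.one_mul]
        have h4 : Y.mkQ (rmul T (bd1a_dg n (v.y ^ k)) z) = 0 := by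
          rw [Submodule.mkQ_apply, Submodule.Quotient.mk_eq_zero]
          exact h3
        rw [map_add, h4, add_zero]
        exact Submodule.mem_map_of_mem hg
      · exact Submodule.map_mono hGF
    rw [hXG]
    exact hG.map _
  have hfgp : FGP T X := fgp_of_split X (Module.Finite.iff_fg.2 hfin) hp3 hp2
  -- transport
  let f : v.F n →ₗ[T] X := LinearMap.codRestrict X (Y.mkQ ∘ₗ (v.F n).subtype)
    (fun x => Submodule.mem_map_of_mem x.2)
  have hf : Function.Surjective f := by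
    rintro ⟨_, x, hx, rfl⟩
    exact ⟨⟨x, hx⟩, rfl⟩
  have hker : Y.submoduleOf (v.F n) = LinearMap.ker f := by
    ext x
    rw [LinearMap.mem_ker]
    have h5 : f x = 0 ↔ Y.mkQ (x : n → Q) = 0 := by
      rw [← Subtype.coe_inj]
      rfl
    rw [h5, Submodule.mkQ_apply, Submodule.Quotient.mk_eq_zero]
    rfl
  exact rel_fgp_equiv hfgp
    ((Submodule.quotEquivOfEq _ _ hker).trans (f.quotKerEquivOfSurjective hf)).symm

end Bd

end Pool.Agent.Ind
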