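import Pool.Agent.Lib.MP_8f66f0_al_Ind.Rel
import Pool.Agent.Lib.MP_8f66f0_al_Ind.Bd1a

/-! The index does not depend on the power of `y` and is multiplicative. -/

set_option autoImplicit false

namespace Pool.Agent.Ind

open Pool.Agent.Wald Matrix

section Bd

variable {T Q : Type} [Ring T] [Ring Q] [Module T Q] [IsScalarTower T Q Q] (v : Val T Q)

theorem bd1b_comm (m : ℕ) (q : Q) : v.y ^ m * q = q * v.y ^ m := by
  have h : Commute v.y q := v.y_comm q
  exact (h.pow_left m).eq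

theorem bd1b_mul {n : Type} [Fintype n] (A B : Matrix n n Q) (m : ℕ) (z : Q) :
    (A.map fun q => q * v.y ^ m) * (B.map fun q => q * z) =
      (A * B).map fun q => q * (v.y ^ m * z) := by
  ext i j
  rw [Matrix.map_apply, Matrix.mul_apply, Matrix.mul_apply, Finset.sum_mul]
  refine Finset.sum_congr rfl fun k _ => ?_
  rw [Matrix.map_apply, Matrix.map_apply, mul_assoc (A i k), ← mul_assoc (v.y ^ m),
    bd1b_comm, mul_assoc, mul_assoc]

theorem bd1b_rmul {n : Type} [Fintype n] (A B : Matrix n n Q) :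
    rmul T (A * B) = (rmul T B) ∘ₗ (rmul T A) := by
  refine LinearMap.ext fun x => ?_
  exact (Matrix.vecMul_vecMul x A B).symm

/-- The lattice of a product. -/
theorem bd1b_L {n : Type} [Fintype n] (A B : Matrix n n Q) (m m' : ℕ) :
    v.L (A * B) (m + m') = (v.L A m).map (rmul T (B.map fun q => q * v.y ^ m')) := by
  rw [Val.L, Val.L, ← Submodule.map_comp, ← bd1b_rmul, bd1b_mul]
  simp only [pow_add]

theorem bd1b_pow_yi (m : ℕ) : v.y ^ m * v.yi ^ m = 1 := by
  have h : Commute v.y v.yi := by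
    rw [Commute, SemiconjBy, v.y_yi, v.yi_y]
  rw [← h.mul_pow, v.y_yi, one_pow]

theorem bd1b_inj {n : Type} [Fintype n] [DecidableEq n] {B : Matrix n n Q} (hB : IsUnit B)
    (m : ℕ) : Function.Injective (rmul T (B.map fun q => q * v.y ^ m)) := by
  obtain ⟨C, hC⟩ := hB.exists_right_inv
  have h : (B.map fun q => q * v.y ^ m) * (C.map fun q => q * v.yi ^ m) = 1 := by
    rw [bd1b_mul, hC, bd1b_pow_yi]
    ext i j
    rw [Matrix.map_apply, mul_one]
  intro x x' hx
  have h2 : ∀ x : n → Q, Matrix.vecMul (Matrix.vecMul x (B.map fun q => q * v.y ^ m))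
      (C.map fun q => q * v.yi ^ m) = x := by
    intro x
    rw [Matrix.vecMul_vecMul, h, Matrix.vecMul_one]
  have h3 : Matrix.vecMul x (B.map fun q => q * v.y ^ m) =
      Matrix.vecMul x' (B.map fun q => q * v.y ^ m) := hx
  rw [← h2 x, h3, h2]

theorem ind_L_mul (D : K0Data T) {n : Type} [Fintype n] [DecidableEq n] {A B : Matrix n n Q}
    (hA : IsUnit A) (hB : IsUnit B) {m m' : ℕ} (hm : ∀ i j, A i j * v.y ^ m ∈ v.P)
    (hm' : ∀ i j, B i j * v.y ^ m' ∈ v.P) :
    D.ind (v.F n) (v.L (A * B) (m + m')) =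
      D.ind (v.F n) (v.L A m) * D.ind (v.F n) (v.L B m') := by
  have h1 : FPq (v.F n) (v.L B m') := fpq_L v hB hm'
  have h2 := ind_map D (fpq_L v hA hm) (rmul T (B.map fun q => q * v.y ^ m'))
    (bd1b_inj v hB m')
  have h3 := ind_trans D h1 h2.1
  have h4 : D.ind (v.L B m') ((v.L A m).map (rmul T (B.map fun q => q * v.y ^ m'))) =
      D.ind (v.F n) (v.L A m) := h2.2
  rw [bd1b_L, h3.2, h4, mul_comm]

theorem bd1b_one_mem {n : Type} [DecidableEq n] (i j : n) :
    (1 : Matrix n n Q) i j * v.y ^ 1 ∈ v.P := by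
  rw [pow_one, Matrix.one_apply]
  split_ifs
  · rw [one_mul]
    exact v.y_mem
  · rw [zero_mul]
    exact v.P.zero_mem

theorem bd1b_cls (D : K0Data T) (n : Type) [Fintype n] : D.cls (n → T) = 1 := by
  have h : FGP T (n → T) := ⟨inferInstance, inferInstance⟩
  rw [D.cls_iso (n → T) (Fin (Fintype.card n) → T) h
    (LinearEquiv.funCongrLeft T T (Fintype.equivFin n).symm), D.cls_free]

theorem bd1b_memF {n : Type} [Fintype n] (x : n → Q) : x ∈ v.F n ↔ ∀ i, x i ∈ v.P := by
  rw [Val.F, Submodule.mem_pi]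
  exact ⟨fun h i => h i (Set.mem_univ i), fun h i _ => h i⟩

theorem bd1b_one (D : K0Data T) {n : Type} [Fintype n] [DecidableEq n] :
    D.ind (v.F n) (v.L (1 : Matrix n n Q) 1) = 1 := by
  have hfp : FPq (v.F n) (v.L (1 : Matrix n n Q) 1) :=
    fpq_L v isUnit_one (bd1b_one_mem v)
  have hL : ∀ x : n → Q, x ∈ v.L (1 : Matrix n n Q) 1 ↔ ∃ z ∈ v.F n, x = fun i => z i * v.y := by
    intro x
    have h1 : ∀ z : n → Q, rmul T ((1 : Matrix n n Q).map fun q => q * v.y ^ 1) z =
        fun i => z i * v.y := by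
      intro z
      funext i
      show Matrix.vecMul z ((1 : Matrix n n Q).map fun q => q * v.y ^ 1) i = z i * v.y
      rw [Matrix.vecMul, dotProduct, Finset.sum_eq_single i]
      · rw [Matrix.map_apply, Matrix.one_apply_eq, one_mul, pow_one]
      · intro k _ hk
        rw [Matrix.map_apply, Matrix.one_apply_ne hk, zero_mul, mul_zero]
      · intro h
        exact absurd (Finset.mem_univ i) h
    rw [Val.L, Submodule.mem_map]
    constructor
    · rintro ⟨z, hz, rfl⟩
      exact ⟨z, hz, h1 z⟩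
    · rintro ⟨z, hz, rfl⟩
      exact ⟨z, hz, h1 z⟩
  let f : v.F n →ₗ[T] (n → T) :=
    (LinearMap.pi fun i => v.ev ∘ₗ (LinearMap.proj i : (n → Q) →ₗ[T] Q)) ∘ₗ (v.F n).subtype
  have hf : ∀ x : v.F n, f x = fun i => v.ev ((x : n → Q) i) := fun x => rfl
  have hq := ind_quot D hfp.1 (M := n → T) ⟨inferInstance, inferInstance⟩ f ?_ ?_
  · rw [hq.2, bd1b_cls]
  · intro t
    refine ⟨⟨fun i => t i • (1 : Q), (bd1b_memF v _).2 fun i => v.P.smul_mem _ v.one_mem⟩, ?_⟩
    rw [hf]
    funext i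
    show v.ev (t i • (1 : Q)) = t i
    rw [map_smul, v.ev_one, smul_eq_mul, mul_one]
  · intro x
    rw [hf, hL]
    constructor
    · intro h
      have h1 : ∀ i, ∃ b ∈ v.P, (x : n → Q) i = b * v.y := fun i =>
        v.ev_ker _ ((bd1b_memF v _).1 x.2 i) (congrFun h i)
      choose b hb hb' using h1
      exact ⟨b, (bd1b_memF v _).2 hb, funext hb'⟩
    · rintro ⟨z, hz, hx⟩
      funext i
      rw [hx]
      show v.ev (z i * v.y) = 0
      rw [v.ev_mul _ ((bd1b_memF v _).1 hz i) _ v.y_mem, v.ev_y, mul_zero]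

theorem ind_L_indep (D : K0Data T) {n : Type} [Fintype n] [DecidableEq n] {A : Matrix n n Q}
    (hA : IsUnit A) {m m' : ℕ} (hm : ∀ i j, A i j * v.y ^ m ∈ v.P)
    (hm' : ∀ i j, A i j * v.y ^ m' ∈ v.P) :
    D.ind (v.F n) (v.L A m) = D.ind (v.F n) (v.L A m') := by
  have hstep : ∀ k, (∀ i j, A i j * v.y ^ k ∈ v.P) →
      D.ind (v.F n) (v.L A (1 + k)) = D.ind (v.F n) (v.L A k) := by
    intro k hk
    have h := ind_L_mul v D isUnit_one hA (bd1b_one_mem v) hk
    rw [one_mul, bd1b_one, one_mul] at h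
    exact h
  have hup : ∀ k, (∀ i j, A i j * v.y ^ k ∈ v.P) → ∀ d : ℕ,
      (∀ i j, A i j * v.y ^ (d + k) ∈ v.P) ∧
        D.ind (v.F n) (v.L A (d + k)) = D.ind (v.F n) (v.L A k) := by
    intro k hk d
    induction d with
    | zero =>
      rw [zero_add]
      exact ⟨hk, rfl⟩
    | succ d ih =>
      have e : d + 1 + k = 1 + (d + k) := by omega
      rw [e]
      refine ⟨fun i j => ?_, ?_⟩
      · rw [add_comm 1, pow_succ, ← mul_assoc]
        exact v.mul_mem _ (ih.1 i j) _ v.y_mem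
      · rw [hstep _ ih.1, ih.2]
  rcases le_total m m' with h | h
  · obtain ⟨d, rfl⟩ : ∃ d, m' = d + m := ⟨m' - m, by omega⟩
    exact (hup m hm d).2.symm
  · obtain ⟨d, rfl⟩ : ∃ d, m = d + m' := ⟨m - m', by omega⟩
    exact (hup m' hm' d).2

end Bd

end Pool.Agent.Ind
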