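import Pool.Agent.Lib.MP_8f66f0_al_Ind.ProjLift

/-! The tensor product `L((y)) ⊗ T` and the Laurent series over `T`. -/

set_option autoImplicit false

namespace Pool.Agent.Ind

open Pool.Agent.Wald Matrix TensorProduct

/-- The Laurent series, with the algebra structure over `L` by constants (a type synonym, since
the instances of Mathlib for `LaurentSeries L` are not the ones wanted here). -/
def LS (L : Type) [CommRing L] : Type := LaurentSeries L

noncomputable instance instCommRingLS (L : Type) [CommRing L] : CommRing (LS L) :=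
  inferInstanceAs (CommRing (LaurentSeries L))

noncomputable instance instAlgebraLS (L : Type) [CommRing L] : Algebra L (LS L) :=
  RingHom.toAlgebra (HahnSeries.C : L →+* LaurentSeries L)

instance instIsDomainLS (L : Type) [CommRing L] [IsDomain L] : IsDomain (LS L) :=
  inferInstanceAs (IsDomain (LaurentSeries L))

section

variable (L T : Type) [CommRing L] [Ring T] [Algebra L T]

/-- Laurent series with coefficients mapped to `T`. -/
private noncomputable def ltMap : LaurentSeries L →+* LaurentSeries T where
  toFun x := x.map (algebraMap L T)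
  map_one' := by
    apply HahnSeries.ext
    funext k
    rw [HahnSeries.map_coeff, HahnSeries.coeff_one, HahnSeries.coeff_one]
    split_ifs
    · exact map_one _
    · exact map_zero _
  map_mul' x y := HahnSeries.map_mul ((algebraMap L T : L →+* T) : L →ₙ+* T)
  map_zero' := by
    apply HahnSeries.ext
    funext k
    rw [HahnSeries.map_coeff, HahnSeries.coeff_zero, HahnSeries.coeff_zero, map_zero]
  map_add' x y := by
    apply HahnSeries.ext
    funext k
    rw [HahnSeries.map_coeff, HahnSeries.coeff_add, HahnSeries.coeff_add, HahnSeries.map_coeff,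
      HahnSeries.map_coeff, map_add]

private theorem ltMap_coeff (x : LaurentSeries L) (k : ℤ) :
    (ltMap L T x).coeff k = algebraMap L T (x.coeff k) := by
  change (HahnSeries.map x (algebraMap L T)).coeff k = _
  rw [HahnSeries.map_coeff]

private theorem ltMap_comm (x : LaurentSeries L) (t : T) :
    Commute (ltMap L T x) (HahnSeries.C t) := by
  change ltMap L T x * HahnSeries.single 0 t = HahnSeries.single 0 t * ltMap L T x
  apply HahnSeries.ext
  funext k
  rw [HahnSeries.coeff_mul_single_zero, HahnSeries.coeff_single_zero_mul, ltMap_coeff,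
    Algebra.commutes]

private theorem lt_comm (c : L) (x : LaurentSeries T) :
    (HahnSeries.single 0 (algebraMap L T c) : LaurentSeries T) * x =
      x * (HahnSeries.single 0 (algebraMap L T c) : LaurentSeries T) := by
  apply HahnSeries.ext
  funext k
  rw [HahnSeries.coeff_mul_single_zero, HahnSeries.coeff_single_zero_mul, Algebra.commutes]

private theorem lt_coeff (f : LaurentSeries L) (t : T) (k : ℤ) :
    (ltMap L T f * (HahnSeries.single 0 t : LaurentSeries T)).coeff k =
      algebraMap L T (f.coeff k) * t := by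
  rw [HahnSeries.coeff_mul_single_zero, ltMap_coeff]

/-- The Laurent series over `T`, as an `L`-algebra. -/
private def LT (L T : Type) [CommRing L] [Ring T] [Algebra L T] : Type := LaurentSeries T

private noncomputable instance instRingLT : Ring (LT L T) :=
  inferInstanceAs (Ring (LaurentSeries T))

private noncomputable instance instAlgebraLT : Algebra L (LT L T) :=
  RingHom.toAlgebra' ((HahnSeries.C : T →+* LaurentSeries T).comp (algebraMap L T)) (by
    intro c x
    exact lt_comm L T c x)

/-- The homomorphism `L((y)) ⊗ T → T((y))`. -/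
theorem exists_tens :
    ∃ Φ : (LS L) ⊗[L] T →+* LaurentSeries T,
      ∀ (f : LaurentSeries L) (t : T) (k : ℤ),
        (Φ ((f : LS L) ⊗ₜ t)).coeff k = algebraMap L T (f.coeff k) * t := by
  let A : LS L →ₐ[L] LT L T :=
    { ltMap L T with
      commutes' := by
        intro c
        change ltMap L T (HahnSeries.single 0 c) = HahnSeries.single 0 (algebraMap L T c)
        apply HahnSeries.ext
        funext k
        rw [ltMap_coeff, HahnSeries.coeff_single, HahnSeries.coeff_single]
        split_ifs
        · rfl
        · exact map_zero _ }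
  let B : T →ₐ[L] LT L T :=
    { (HahnSeries.C : T →+* LaurentSeries T) with
      commutes' := fun c => rfl }
  refine ⟨(Algebra.TensorProduct.lift A B (fun x t => ltMap_comm L T x t)).toRingHom, ?_⟩
  intro f t k
  have h1 : (Algebra.TensorProduct.lift A B (fun x t => ltMap_comm L T x t)) (f ⊗ₜ t) =
      ltMap L T f * (HahnSeries.single 0 t : LaurentSeries T) :=
    Algebra.TensorProduct.lift_tmul _ _ _ _ _
  exact (congrArg (fun z : LaurentSeries T => z.coeff k) h1).trans (lt_coeff L T f t k)

end

/-- The homomorphism `L'[D] → L' ⊗ T` given by a homomorphism `L[D] → T`. -/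
noncomputable def jTens (L L' D T : Type) [CommRing L] [CommRing L'] [Algebra L L'] [Group D]
    [Ring T] [Algebra L T] (ι : D →* T) : MonoidAlgebra L' D →ₐ[L'] L' ⊗[L] T :=
  MonoidAlgebra.lift L' (L' ⊗[L] T) D
    ((Algebra.TensorProduct.includeRight : T →ₐ[L] L' ⊗[L] T).toRingHom.toMonoidHom.comp ι)

theorem jTens_single (L L' D T : Type) [CommRing L] [CommRing L'] [Algebra L L'] [Group D]
    [Ring T] [Algebra L T] (ι : D →* T) (g : D) (f : L') :
    jTens L L' D T ι (MonoidAlgebra.single g f) = f ⊗ₜ ι g := by
  rw [jTens, MonoidAlgebra.lift_single]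
  change f • ((1 : L') ⊗ₜ[L] ι g) = _
  rw [TensorProduct.smul_tmul', smul_eq_mul, mul_one]

/-- Finitely generated projective `T`-modules are stably free if `K_1(L((y))[D])` is generated by
units and elements of `D` and every `K_1`-invariant of `L((y)) ⊗ T` which is trivial on
`GL(L((y))[D])` is trivial. -/
theorem projSF_of_tens {L D T : Type} [CommRing L] [IsDomain L] [Group D] [Ring T] [Algebra L T]
    (ι : D →* T) (hWh : WhTL (LaurentSeries L) D)
    (hQ : ∀ (K : Type) [CommGroup K] (κ : K1Fun ((LS L) ⊗[L] T) K),
      (∀ (n : Type) [Fintype n] [DecidableEq n] (A : Matrix n n (MonoidAlgebra (LS L) D)),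
        IsUnit A → κ.f (A.map (jTens L (LS L) D T ι)) = 1) →
      ∀ (n : Type) [Fintype n] [DecidableEq n] (A : Matrix n n ((LS L) ⊗[L] T)),
        IsUnit A → κ.f A = 1) :
    ProjSF T := by
  obtain ⟨Φ, hΦ⟩ := exists_tens L T
  refine projSF_of_lift (jTens L (LS L) D T ι).toRingHom
    (Algebra.TensorProduct.includeRight : T →ₐ[L] (LS L) ⊗[L] T).toRingHom Φ
    ?_ ?_ ?_ ?_ hWh hQ
  · intro g f i hi
    change (Φ (jTens L (LS L) D T ι (MonoidAlgebra.single g f))).coeff i = 0
    rw [jTens_single, hΦ, hi, map_zero, zero_mul]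
  · intro t
    change Φ (((1 : LaurentSeries L) : LS L) ⊗ₜ t) = _
    apply HahnSeries.ext
    funext k
    rw [hΦ (1 : LaurentSeries L)]
    change _ = (HahnSeries.single 0 t).coeff k
    rw [HahnSeries.coeff_one, HahnSeries.coeff_single]
    split_ifs
    · rw [map_one, one_mul]
    · rw [map_zero, zero_mul]
  · change Φ (jTens L (LS L) D T ι (MonoidAlgebra.single 1 (HahnSeries.single 1 1))) = _
    rw [jTens_single, MonoidHom.map_one ι]
    apply HahnSeries.ext
    funext k
    rw [hΦ, HahnSeries.coeff_single, HahnSeries.coeff_single]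
    split_ifs
    · rw [map_one, one_mul]
    · rw [map_zero, zero_mul]
  · intro q
    change jTens L (LS L) D T ι (MonoidAlgebra.single 1 (HahnSeries.single 1 1)) * q =
      q * jTens L (LS L) D T ι (MonoidAlgebra.single 1 (HahnSeries.single 1 1))
    rw [jTens_single, MonoidHom.map_one ι]
    induction q using TensorProduct.induction_on with
    | zero => rw [zero_mul, mul_zero]
    | tmul f t =>
      rw [Algebra.TensorProduct.tmul_mul_tmul, Algebra.TensorProduct.tmul_mul_tmul, one_mul,
        mul_one]
      exact congrArg (fun z : LS L => z ⊗ₜ[L] t) (mul_comm (G := LS L) _ _)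
    | add a b ha hb => rw [mul_add, add_mul, ha, hb]

/-- Base change of right bases: if every element of `Om` is in a unique way `∑ w_i λ_i`, the same
is true for `L' ⊗ Om` over `L' ⊗ Lam`. -/
theorem bij_baseChange {L L' Lam Om W : Type} [CommRing L] [CommRing L'] [Algebra L L'] [Ring Lam]
    [Algebra L Lam] [Ring Om] [Algebra L Om] (ι : Lam →ₐ[L] Om) (w : W → Om)
    (h : Function.Bijective fun f : W →₀ Lam => f.sum fun i a => w i * ι a) :
    Function.Bijective fun f : W →₀ (L' ⊗[L] Lam) => f.sum fun i a =>
      ((1 : L') ⊗ₜ[L] w i) * Algebra.TensorProduct.map (AlgHom.id L L') ι a := by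
  classical
  let e0 : (W →₀ Lam) →ₗ[L] Om :=
    Finsupp.lsum L fun i => (LinearMap.mulLeft L (w i)) ∘ₗ ι.toLinearMap
  have he0 : ∀ f : W →₀ Lam, e0 f = f.sum fun i a => w i * ι a := fun f => rfl
  let e : (W →₀ Lam) ≃ₗ[L] Om := LinearEquiv.ofBijective e0 h
  let E : (W →₀ (L' ⊗[L] Lam)) ≃ₗ[L] (L' ⊗[L] Om) :=
    (TensorProduct.finsuppRight L L L' Lam W).symm ≪≫ₗ (TensorProduct.congr (LinearEquiv.refl L L') e)
  have hE : ∀ f : W →₀ (L' ⊗[L] Lam), E f = f.sum fun i a =>
      ((1 : L') ⊗ₜ[L] w i) * Algebra.TensorProduct.map (AlgHom.id L L') ι a := by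
    intro f
    let E' : (W →₀ (L' ⊗[L] Lam)) →ₗ[L] (L' ⊗[L] Om) :=
      Finsupp.lsum L fun i => (LinearMap.mulLeft L ((1 : L') ⊗ₜ[L] w i)) ∘ₗ
        (Algebra.TensorProduct.map (AlgHom.id L L') ι).toLinearMap
    have h1 : E.toLinearMap = E' := by
      refine Finsupp.lhom_ext' fun i => ?_
      refine TensorProduct.ext' fun a b => ?_
      change E (Finsupp.single i (a ⊗ₜ b)) = E' (Finsupp.single i (a ⊗ₜ b))
      have h2 : E' (Finsupp.single i (a ⊗ₜ b)) = a ⊗ₜ (w i * ι b) := by
        change (Finsupp.lsum L _) (Finsupp.single i (a ⊗ₜ b)) = _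
        rw [Finsupp.lsum_single]
        change ((1 : L') ⊗ₜ[L] w i) * (Algebra.TensorProduct.map (AlgHom.id L L') ι (a ⊗ₜ b)) = _
        rw [Algebra.TensorProduct.map_tmul, Algebra.TensorProduct.tmul_mul_tmul, one_mul]
        rfl
      rw [h2]
      change (TensorProduct.congr (LinearEquiv.refl L L') e)
        ((TensorProduct.finsuppRight L L L' Lam W).symm (Finsupp.single i (a ⊗ₜ b))) = _
      rw [TensorProduct.finsuppRight_symm_apply_single, TensorProduct.congr_tmul]
      change a ⊗ₜ (e0 (Finsupp.single i b)) = _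
      rw [he0, Finsupp.sum_single_index]
      rw [map_zero, mul_zero]
    have h3 := LinearMap.congr_fun h1 f
    exact h3
  have hfun : (fun f : W →₀ (L' ⊗[L] Lam) => f.sum fun i a =>
      ((1 : L') ⊗ₜ[L] w i) * Algebra.TensorProduct.map (AlgHom.id L L') ι a) = E := by
    funext f
    exact (hE f).symm
  rw [hfun]
  exact E.bijective

end Pool.Agent.Ind
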