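import Pool.Agent.Lib.MP_8f66f0_al_Ind.PSF
import Pool.Agent.Lib.MP_8f66f0_al_Ind.LaurVal
import Pool.Agent.Lib.MP_8f66f0_al_Wald.K1Lem

/-! Finitely generated projective modules over a ring `T` are stably free if the `K_1`-invariants
of some ring `Q` between `L((y))[D]` and `T((y))` are trivial. -/

set_option autoImplicit false

namespace Pool.Agent.Ind

open Pool.Agent.Wald Matrix

/-- The pull back of an invariant along a ring homomorphism. -/
private def plPull {Λ Λ' : Type} [Ring Λ] [Ring Λ'] (φ : Λ →+* Λ') {K : Type} [CommGroup K]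
    (κ : K1Fun Λ' K) : K1Fun Λ K where
  f := fun {n} _ _ A => κ.f (A.map φ)
  mul := fun {n} _ _ A B hA hB => by
    rw [Matrix.map_mul]
    exact κ.mul _ _ (hA.map φ.mapMatrix) (hB.map φ.mapMatrix)
  reindex := fun {n m} _ _ _ _ e A hA => by
    have h := κ.reindex e (A.map φ) (hA.map φ.mapMatrix)
    exact h
  tri := fun {n m} _ _ _ _ A B D hA hD => by
    rw [Matrix.fromBlocks_map, Matrix.map_zero _ (map_zero φ)]
    exact κ.tri _ _ _ (hA.map φ.mapMatrix) (hD.map φ.mapMatrix)

private theorem pl_of_mul {Λ : Type} [Ring Λ] (a b : Λ) :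
    (Matrix.of fun _ _ : Fin 1 => a) * (Matrix.of fun _ _ : Fin 1 => b) =
      Matrix.of fun _ _ : Fin 1 => a * b := by
  ext i j
  rw [Matrix.mul_apply]
  simp

private theorem pl_isUnit_of {Λ : Type} [Ring Λ] {a b : Λ} (h : a * b = 1) (h' : b * a = 1) :
    IsUnit (Matrix.of fun _ _ : Fin 1 => a) := by
  have h1 : (Matrix.of fun _ _ : Fin 1 => (1 : Λ)) = 1 := by
    ext i j
    rw [Subsingleton.elim i j, Matrix.one_apply_eq]
    rfl
  refine ⟨⟨_, Matrix.of fun _ _ : Fin 1 => b, ?_, ?_⟩, rfl⟩
  · rw [pl_of_mul, h, h1]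
  · rw [pl_of_mul, h', h1]

/-- Powers of `y` are killed if `y` is killed. -/
private theorem pl_kill_y {T : Type} [Ring T] {K : Type} [CommGroup K]
    (κ : K1Fun (LaurentSeries T) K)
    (hy : κ.f (Matrix.of fun _ _ : Fin 1 => (HahnSeries.single 1 1 : LaurentSeries T)) = 1)
    (k : ℤ) :
    κ.f (Matrix.of fun _ _ : Fin 1 => (HahnSeries.single k 1 : LaurentSeries T)) = 1 := by
  have hu : ∀ k : ℤ, IsUnit (Matrix.of fun _ _ : Fin 1 =>
      (HahnSeries.single k 1 : LaurentSeries T)) := by
    intro k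
    apply pl_isUnit_of (b := HahnSeries.single (-k) 1)
    · rw [HahnSeries.single_mul_single, add_neg_cancel, one_mul]
      rfl
    · rw [HahnSeries.single_mul_single, neg_add_cancel, one_mul]
      rfl
  have h0 : κ.f (Matrix.of fun _ _ : Fin 1 => (HahnSeries.single 0 1 : LaurentSeries T)) = 1 := by
    have h1 : (Matrix.of fun _ _ : Fin 1 => (HahnSeries.single 0 1 : LaurentSeries T)) = 1 := by
      ext i j : 2
      rw [Subsingleton.elim i j, Matrix.one_apply_eq]
      rfl
    rw [h1]
    exact κ.f_one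
  have hadd : ∀ k l : ℤ,
      κ.f (Matrix.of fun _ _ : Fin 1 => (HahnSeries.single (k + l) 1 : LaurentSeries T)) =
      κ.f (Matrix.of fun _ _ : Fin 1 => (HahnSeries.single k 1 : LaurentSeries T)) *
        κ.f (Matrix.of fun _ _ : Fin 1 => (HahnSeries.single l 1 : LaurentSeries T)) := by
    intro k l
    rw [← κ.mul _ _ (hu k) (hu l), pl_of_mul, HahnSeries.single_mul_single, one_mul]
  induction k with
  | zero => exact h0
  | succ n ih => rw [hadd, ih, hy, one_mul]
  | pred n ih =>
    have h1 := hadd (-(n : ℤ) - 1) 1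
    rw [sub_add_cancel, ih, hy, mul_one] at h1
    exact h1.symm

private theorem pl_inv {Λ : Type} [Ring Λ] {n : Type} [Fintype n] [DecidableEq n]
    {P : Matrix n n Λ} (hP : P * P = P) {y yi : Λ} (hy : ∀ q, y * q = q * y)
    (h : y * yi = 1) :
    (1 - P + P.map fun q => q * y) * (1 - P + P.map fun q => q * yi) = 1 := by
  have e1 : ∀ (A B : Matrix n n Λ) (c : Λ), A * (B.map fun q => q * c) =
      (A * B).map fun q => q * c := by
    intro A B c
    ext i j
    rw [Matrix.map_apply, Matrix.mul_apply, Matrix.mul_apply, Finset.sum_mul]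
    apply Finset.sum_congr rfl
    intro k _
    rw [Matrix.map_apply, mul_assoc]
  have e2 : ∀ (A B : Matrix n n Λ), (A.map fun q => q * y) * B =
      (A * B).map fun q => q * y := by
    intro A B
    ext i j
    rw [Matrix.map_apply, Matrix.mul_apply, Matrix.mul_apply, Finset.sum_mul]
    apply Finset.sum_congr rfl
    intro k _
    rw [Matrix.map_apply, mul_assoc, hy, mul_assoc]
  have e3 : ((P.map fun q => q * y).map fun q => q * yi) = P := by
    ext i j
    rw [Matrix.map_apply, Matrix.map_apply, mul_assoc, h, mul_one]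
  have e4 : (1 - P) * P = 0 := by rw [Matrix.sub_mul, Matrix.one_mul, hP, sub_self]
  have e5 : P * (1 - P) = 0 := by rw [Matrix.mul_sub, Matrix.mul_one, hP, sub_self]
  have e6 : (1 - P) * (1 - P) = 1 - P := by
    rw [Matrix.mul_sub, Matrix.mul_one, e4, sub_zero]
  have e7 : ∀ c : Λ, (0 : Matrix n n Λ).map (fun q => q * c) = 0 := by
    intro c
    ext i j
    rw [Matrix.map_apply, Matrix.zero_apply, zero_mul]
  rw [Matrix.add_mul, Matrix.mul_add, Matrix.mul_add, e6, e1, e4, e7, e2, e5, e7, e1, e2, hP, e3,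
    add_zero, zero_add, sub_add_cancel]

/-- Let `Q` be a ring with homomorphisms `j : L((y))[D] → Q`, `jT : T → Q`, `Φ : Q → T((y))`
(for example `Q = L((y)) ⊗ T` for an `L`-algebra `T` with a homomorphism `L[D] → T`). If
`K_1(L((y))[D])` is generated by the units of `L((y))` and the elements of `D`, and every
`K_1`-invariant of `Q` which is trivial on `GL(L((y))[D])` is trivial, then all finitely generated
projective `T`-modules are stably free. -/
theorem projSF_of_lift {L D T Q : Type} [CommRing L] [IsDomain L] [Group D] [Ring T] [Ring Q]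
    (j : MonoidAlgebra (LaurentSeries L) D →+* Q) (jT : T →+* Q) (Φ : Q →+* LaurentSeries T)
    (hΦ : ∀ (g : D) (f : LaurentSeries L) (i : ℤ), f.coeff i = 0 →
      (Φ (j (MonoidAlgebra.single g f))).coeff i = 0)
    (hΦT : ∀ t, Φ (jT t) = HahnSeries.C t)
    (hΦy : Φ (j (MonoidAlgebra.single 1 (HahnSeries.single 1 1))) = HahnSeries.single 1 1)
    (hyc : ∀ q, j (MonoidAlgebra.single 1 (HahnSeries.single 1 1)) * q =
      q * j (MonoidAlgebra.single 1 (HahnSeries.single 1 1)))
    (hWh : WhTL (LaurentSeries L) D)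
    (hQ : ∀ (K : Type) [CommGroup K] (κ : K1Fun Q K),
      (∀ (n : Type) [Fintype n] [DecidableEq n] (A : Matrix n n (MonoidAlgebra (LaurentSeries L) D)),
        IsUnit A → κ.f (A.map j) = 1) →
      ∀ (n : Type) [Fintype n] [DecidableEq n] (A : Matrix n n Q), IsUnit A → κ.f A = 1) :
    ProjSF T := by
  obtain ⟨v, hvy, hvyi, hvP⟩ := exists_val T
  apply projSF_of_val v
  intro K _ κ hκy hκu n p hp
  rw [hvy] at hκy
  set φ : MonoidAlgebra (LaurentSeries L) D →+* LaurentSeries T := Φ.comp j with hφdef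
  have hφ0 : ∀ (g : D) (f : LaurentSeries L) (i : ℤ), f.coeff i = 0 →
      (φ (MonoidAlgebra.single g f)).coeff i = 0 := fun g f i h => hΦ g f i h
  -- trivial units are killed
  have hkill : ∀ (g : D) (u : (LaurentSeries L)ˣ),
      (plPull φ κ).f (Matrix.of fun _ _ : Fin 1 =>
        (MonoidAlgebra.single g (u : LaurentSeries L))) = 1 := by
    intro g u
    set k : ℤ := (u : LaurentSeries L).order with hk
    have hu0 : (u : LaurentSeries L) ≠ 0 := u.ne_zero
    have hui0 : ((u⁻¹ : (LaurentSeries L)ˣ) : LaurentSeries L) ≠ 0 := u⁻¹.ne_zero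
    have hord : ((u⁻¹ : (LaurentSeries L)ˣ) : LaurentSeries L).order = -k := by
      have h1 := HahnSeries.order_mul hu0 hui0
      rw [u.mul_inv, HahnSeries.order_one] at h1
      omega
    have hw : HahnSeries.single (-k) 1 * φ (MonoidAlgebra.single g (u : LaurentSeries L)) ∈
        v.P := by
      rw [hvP]
      intro i hi
      have h1 := HahnSeries.coeff_single_mul_add (r := (1 : T))
        (x := φ (MonoidAlgebra.single g (u : LaurentSeries L))) (a := i + k) (b := -k)
      rw [add_neg_cancel_right, one_mul] at h1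
      rw [h1, hφ0 _ _ _ (HahnSeries.coeff_eq_zero_of_lt_order (by omega))]
    have hwi : φ (MonoidAlgebra.single g⁻¹ ((u⁻¹ : (LaurentSeries L)ˣ) : LaurentSeries L)) *
        HahnSeries.single k 1 ∈ v.P := by
      rw [hvP]
      intro i hi
      have h1 := HahnSeries.coeff_mul_single_add (r := (1 : T))
        (x := φ (MonoidAlgebra.single g⁻¹ ((u⁻¹ : (LaurentSeries L)ˣ) : LaurentSeries L)))
        (a := i - k) (b := k)
      rw [sub_add_cancel, mul_one] at h1
      rw [h1, hφ0 _ _ _ (HahnSeries.coeff_eq_zero_of_lt_order (by omega))]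
    have hs1 : (HahnSeries.single k 1 : LaurentSeries T) * HahnSeries.single (-k) 1 = 1 := by
      rw [HahnSeries.single_mul_single, add_neg_cancel, one_mul]
      rfl
    have hs2 : (HahnSeries.single (-k) 1 : LaurentSeries T) * HahnSeries.single k 1 = 1 := by
      rw [HahnSeries.single_mul_single, neg_add_cancel, one_mul]
      rfl
    have hf1 : φ (MonoidAlgebra.single g (u : LaurentSeries L)) *
        φ (MonoidAlgebra.single g⁻¹ ((u⁻¹ : (LaurentSeries L)ˣ) : LaurentSeries L)) = 1 := by
      rw [← map_mul, MonoidAlgebra.single_mul_single, mul_inv_cancel, u.mul_inv]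
      exact map_one φ
    have hf2 : φ (MonoidAlgebra.single g⁻¹ ((u⁻¹ : (LaurentSeries L)ˣ) : LaurentSeries L)) *
        φ (MonoidAlgebra.single g (u : LaurentSeries L)) = 1 := by
      rw [← map_mul, MonoidAlgebra.single_mul_single, inv_mul_cancel, u.inv_mul]
      exact map_one φ
    have hm1 : (HahnSeries.single (-k) 1 * φ (MonoidAlgebra.single g (u : LaurentSeries L))) *
        (φ (MonoidAlgebra.single g⁻¹ ((u⁻¹ : (LaurentSeries L)ˣ) : LaurentSeries L)) *
        HahnSeries.single k 1) = 1 := by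
      rw [mul_assoc, ← mul_assoc (φ _) (φ _), hf1, one_mul, hs2]
    have hm2 : (φ (MonoidAlgebra.single g⁻¹ ((u⁻¹ : (LaurentSeries L)ˣ) : LaurentSeries L)) *
        HahnSeries.single k 1) *
        (HahnSeries.single (-k) 1 * φ (MonoidAlgebra.single g (u : LaurentSeries L))) = 1 := by
      rw [mul_assoc, ← mul_assoc (HahnSeries.single k 1), hs1, one_mul, hf2]
    have e1 := hκu _ _ hw hwi hm1 hm2
    have e2 : κ.f (Matrix.of fun _ _ : Fin 1 =>
        φ (MonoidAlgebra.single g (u : LaurentSeries L))) = 1 := by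
      have e3 : (Matrix.of fun _ _ : Fin 1 => φ (MonoidAlgebra.single g (u : LaurentSeries L))) =
          (Matrix.of fun _ _ : Fin 1 => (HahnSeries.single k 1 :
            LaurentSeries T)) * (Matrix.of fun _ _ : Fin 1 =>
            HahnSeries.single (-k) 1 * φ (MonoidAlgebra.single g (u : LaurentSeries L))) := by
        rw [pl_of_mul, ← mul_assoc, hs1, one_mul]
      rw [e3, κ.mul _ _ (pl_isUnit_of hs1 hs2) (pl_isUnit_of hm1 hm2), e1,
        pl_kill_y κ hκy, one_mul]
    exact e2
  have hall0 := hWh K (plPull φ κ) hkill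
  have hall := hQ K (plPull Φ κ) (by
    intro n _ _ A hA
    have h1 := hall0 n A hA
    change κ.f ((A.map j).map Φ) = 1
    change κ.f (A.map φ) = 1 at h1
    rw [Matrix.map_map]
    exact h1)
  -- the lift of the matrix
  set P : Matrix (Fin n) (Fin n) Q := p.map jT with hPdef
  have hPP : P * P = P := by
    rw [hPdef, ← Matrix.map_mul, hp]
  set Y : Q := j (MonoidAlgebra.single 1 (HahnSeries.single 1 1)) with hY
  set Yi : Q := j (MonoidAlgebra.single 1 (HahnSeries.single (-1) 1)) with hYi
  have hYYi : Y * Yi = 1 := by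
    rw [hY, hYi, ← map_mul, MonoidAlgebra.single_mul_single, one_mul,
      HahnSeries.single_mul_single, add_neg_cancel, one_mul]
    exact map_one j
  have hYic : ∀ q, Yi * q = q * Yi := by
    intro q
    calc Yi * q = Yi * q * (Y * Yi) := by rw [hYYi, mul_one]
      _ = Yi * (q * Y) * Yi := by simp only [mul_assoc]
      _ = Yi * (Y * q) * Yi := by rw [hyc]
      _ = (Yi * Y) * q * Yi := by simp only [mul_assoc]
      _ = (Y * Yi) * q * Yi := by rw [← hyc Yi]
      _ = q * Yi := by rw [hYYi, one_mul]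
  have hYiY : Yi * Y = 1 := by rw [hYic, hYYi]
  have hunit : IsUnit (1 - P + P.map fun q => q * Y) :=
    ⟨⟨_, _, pl_inv hPP hyc hYYi, pl_inv hPP hYic hYiY⟩, rfl⟩
  have hfin := hall (Fin n) _ hunit
  have hφC : ∀ t : T, Φ (jT t) = t • (1 : LaurentSeries T) := by
    intro t
    rw [hΦT, ← HahnSeries.C_mul_eq_smul, mul_one]
  have hφY : Φ Y = v.y := by
    rw [hvy]
    exact hΦy
  have hmap : (1 - P + P.map fun q => q * Y).map Φ =
      1 - up T (LaurentSeries T) p + (up T (LaurentSeries T) p).map fun q => q * v.y := by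
    have e0 : P.map Φ = up T (LaurentSeries T) p := by
      apply Matrix.ext
      intro i j'
      exact hφC (p i j')
    have e1 : (P.map fun q => q * Y).map Φ = (P.map Φ).map fun q => q * v.y := by
      apply Matrix.ext
      intro i j
      rw [Matrix.map_apply, Matrix.map_apply, Matrix.map_apply, Matrix.map_apply, map_mul, hφY]
    rw [Matrix.map_add _ (map_add Φ), Matrix.map_sub _ (map_sub Φ), e1, e0,
      Matrix.map_one _ (map_zero Φ) (map_one Φ)]
  rw [← hmap]
  exact hfin

end Pool.Agent.Ind
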