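import Pool.Agent.Lib.MP_8f66f0_al_Ind.Defs

set_option autoImplicit false

namespace Pool.Agent.Ind

open Pool.Agent.Wald Matrix

section Rel

variable {T V V' : Type} [Ring T] [AddCommGroup V] [Module T V] [AddCommGroup V'] [Module T V']

theorem rel_fgp_equiv {M N : Type} [AddCommGroup M] [Module T M] [AddCommGroup N] [Module T N]
    (h : FGP T M) (e : M ≃ₗ[T] N) : FGP T N := by
  have h1 := h.1
  have h2 := h.2
  exact ⟨Module.Finite.equiv e, Module.Projective.of_equiv e⟩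

theorem rel_fgp_prod {M N : Type} [AddCommGroup M] [Module T M] [AddCommGroup N] [Module T N]
    (h : FGP T M) (h' : FGP T N) : FGP T (M × N) := by
  have h1 := h.1
  have h2 := h.2
  have h3 := h'.1
  have h4 := h'.2
  exact ⟨inferInstance, inferInstance⟩

/-- A section of the projection onto a projective quotient. -/
theorem rel_exists_section {M : Type} [AddCommGroup M] [Module T M] (X : Submodule T M)
    (hq : Module.Projective T (M ⧸ X)) : ∃ s : (M ⧸ X) →ₗ[T] M, ∀ u, X.mkQ (s u) = u := by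
  obtain ⟨s, hs⟩ := Module.projective_lifting_property X.mkQ LinearMap.id X.mkQ_surjective
  exact ⟨s, fun u => by
    have := LinearMap.congr_fun hs u
    simpa using this⟩

theorem ind_quot (D : K0Data T) {X Y : Submodule T V} (hYX : Y ≤ X) {M : Type} [AddCommGroup M]
    [Module T M] (hM : FGP T M) (f : X →ₗ[T] M) (hf : Function.Surjective f)
    (hk : ∀ x : X, f x = 0 ↔ (x : V) ∈ Y) : FPq X Y ∧ D.ind X Y = D.cls M := by
  have hker : Y.submoduleOf X = LinearMap.ker f := by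
    ext x
    rw [LinearMap.mem_ker, hk x]
    rfl
  have e : (X ⧸ Y.submoduleOf X) ≃ₗ[T] M :=
    (Submodule.quotEquivOfEq _ _ hker).trans (f.quotKerEquivOfSurjective hf)
  have hF : FGP T (X ⧸ Y.submoduleOf X) := rel_fgp_equiv hM e.symm
  exact ⟨⟨hYX, hF⟩, D.cls_iso _ _ hF e⟩

theorem ind_self (D : K0Data T) (X : Submodule T V) : FPq X X ∧ D.ind X X = 1 := by
  have h := ind_quot D (le_refl X) (M := Fin 0 → T) ⟨inferInstance, inferInstance⟩ 0
    (fun u => ⟨0, Subsingleton.elim _ _⟩) (fun x => ⟨fun _ => x.2, fun _ => rfl⟩)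
  rw [D.cls_free] at h
  exact h

theorem ind_trans (D : K0Data T) {X Y Z : Submodule T V} (h1 : FPq X Y) (h2 : FPq Y Z) :
    FPq X Z ∧ D.ind X Z = D.ind X Y * D.ind Y Z := by
  obtain ⟨hYX, hXY⟩ := h1
  obtain ⟨hZY, hYZ⟩ := h2
  obtain ⟨s, hs⟩ := rel_exists_section (Y.submoduleOf X) hXY.2
  have hmem : ∀ x : X, (((x - s ((Y.submoduleOf X).mkQ x) : X)) : V) ∈ Y := by
    intro x
    have h3 : (Y.submoduleOf X).mkQ (x - s ((Y.submoduleOf X).mkQ x)) = 0 := by
      rw [map_sub, hs, sub_self]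
    rw [Submodule.mkQ_apply, Submodule.Quotient.mk_eq_zero] at h3
    exact h3
  let g : X →ₗ[T] Y := LinearMap.codRestrict Y
    (X.subtype ∘ₗ (LinearMap.id - s ∘ₗ (Y.submoduleOf X).mkQ)) (fun x => hmem x)
  have hg : ∀ x : X, ((g x : Y) : V) = ((x - s ((Y.submoduleOf X).mkQ x) : X) : V) := fun _ => rfl
  let f : X →ₗ[T] (X ⧸ Y.submoduleOf X) × (Y ⧸ Z.submoduleOf Y) :=
    LinearMap.prod (Y.submoduleOf X).mkQ ((Z.submoduleOf Y).mkQ ∘ₗ g)
  have hYq : ∀ x : X, (Y.submoduleOf X).mkQ x = 0 ↔ (x : V) ∈ Y := by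
    intro x
    rw [Submodule.mkQ_apply, Submodule.Quotient.mk_eq_zero]
    rfl
  have hZq : ∀ x : Y, (Z.submoduleOf Y).mkQ x = 0 ↔ (x : V) ∈ Z := by
    intro x
    rw [Submodule.mkQ_apply, Submodule.Quotient.mk_eq_zero]
    rfl
  have h3 := ind_quot D (hZY.trans hYX) (rel_fgp_prod hXY hYZ) f ?_ ?_
  · refine ⟨h3.1, h3.2.trans ?_⟩
    exact D.cls_prod _ _ hXY hYZ
  · rintro ⟨u, w⟩
    obtain ⟨y, rfl⟩ := (Z.submoduleOf Y).mkQ_surjective w
    let x : X := s u + ⟨y.1, hYX y.2⟩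
    have hx : (Y.submoduleOf X).mkQ x = u := by
      have h4 : (Y.submoduleOf X).mkQ (⟨y.1, hYX y.2⟩ : X) = 0 := (hYq _).2 y.2
      rw [map_add, hs, h4, add_zero]
    refine ⟨x, Prod.ext hx ?_⟩
    have h5 : g x = y := by
      apply Subtype.ext
      rw [hg, hx]
      simp [x]
    show (Z.submoduleOf Y).mkQ (g x) = (Z.submoduleOf Y).mkQ y
    rw [h5]
  · intro x
    have hfx : f x = 0 ↔ (Y.submoduleOf X).mkQ x = 0 ∧ (Z.submoduleOf Y).mkQ (g x) = 0 := by
      constructor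
      · intro h
        exact ⟨congrArg Prod.fst h, congrArg Prod.snd h⟩
      · rintro ⟨ha, hb⟩
        exact Prod.ext ha hb
    rw [hfx, hZq]
    constructor
    · rintro ⟨ha, hb⟩
      rw [hg, ha, map_zero, sub_zero] at hb
      exact hb
    · intro hx
      have ha : (Y.submoduleOf X).mkQ x = 0 := (hYq x).2 (hZY hx)
      refine ⟨ha, ?_⟩
      rw [hg, ha, map_zero, sub_zero]
      exact hx

theorem ind_map (D : K0Data T) {X Y : Submodule T V} (h : FPq X Y) (e : V →ₗ[T] V')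
    (he : Function.Injective e) :
    FPq (X.map e) (Y.map e) ∧ D.ind (X.map e) (Y.map e) = D.ind X Y := by
  obtain ⟨hYX, hXY⟩ := h
  refine ind_quot D (Submodule.map_mono hYX) hXY
    ((Y.submoduleOf X).mkQ ∘ₗ (Submodule.equivMapOfInjective e he X).symm.toLinearMap) ?_ ?_
  · exact (Y.submoduleOf X).mkQ_surjective.comp (Submodule.equivMapOfInjective e he X).symm.surjective
  · intro x
    obtain ⟨z, rfl⟩ := (Submodule.equivMapOfInjective e he X).surjective x
    have h1 : ((Y.submoduleOf X).mkQ ∘ₗ (Submodule.equivMapOfInjective e he X).symm.toLinearMap)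
        (Submodule.equivMapOfInjective e he X z) = (Y.submoduleOf X).mkQ z := by
      rw [LinearMap.comp_apply, LinearEquiv.coe_coe, LinearEquiv.symm_apply_apply]
    rw [h1, Submodule.mkQ_apply, Submodule.Quotient.mk_eq_zero, Submodule.coe_equivMapOfInjective_apply]
    constructor
    · intro hz
      exact Submodule.mem_map_of_mem hz
    · rintro ⟨w, hw, hwz⟩
      have := he hwz
      show (z : V) ∈ Y
      rw [← this]
      exact hw

theorem ind_prod (D : K0Data T) {X Y : Submodule T V} {X' Y' : Submodule T V'} (h : FPq X Y)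
    (h' : FPq X' Y') : FPq (X.prod X') (Y.prod Y') ∧
      D.ind (X.prod X') (Y.prod Y') = D.ind X Y * D.ind X' Y' := by
  obtain ⟨hYX, hXY⟩ := h
  obtain ⟨hYX', hXY'⟩ := h'
  let g : X.prod X' →ₗ[T] X := LinearMap.codRestrict X
    (LinearMap.fst T V V' ∘ₗ (X.prod X').subtype) (fun x => x.2.1)
  let g' : X.prod X' →ₗ[T] X' := LinearMap.codRestrict X'
    (LinearMap.snd T V V' ∘ₗ (X.prod X').subtype) (fun x => x.2.2)
  let f : X.prod X' →ₗ[T] (X ⧸ Y.submoduleOf X) × (X' ⧸ Y'.submoduleOf X') :=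
    LinearMap.prod ((Y.submoduleOf X).mkQ ∘ₗ g) ((Y'.submoduleOf X').mkQ ∘ₗ g')
  have hYq : ∀ x : X, (Y.submoduleOf X).mkQ x = 0 ↔ (x : V) ∈ Y := by
    intro x
    rw [Submodule.mkQ_apply, Submodule.Quotient.mk_eq_zero]
    rfl
  have hYq' : ∀ x : X', (Y'.submoduleOf X').mkQ x = 0 ↔ (x : V') ∈ Y' := by
    intro x
    rw [Submodule.mkQ_apply, Submodule.Quotient.mk_eq_zero]
    rfl
  have h3 := ind_quot D (Submodule.prod_mono hYX hYX') (rel_fgp_prod hXY hXY') f ?_ ?_
  · exact ⟨h3.1, h3.2.trans (D.cls_prod _ _ hXY hXY')⟩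
  · rintro ⟨u, w⟩
    obtain ⟨x, rfl⟩ := (Y.submoduleOf X).mkQ_surjective u
    obtain ⟨x', rfl⟩ := (Y'.submoduleOf X').mkQ_surjective w
    exact ⟨⟨(x.1, x'.1), ⟨x.2, x'.2⟩⟩, rfl⟩
  · intro x
    have hfx : f x = 0 ↔ (Y.submoduleOf X).mkQ (g x) = 0 ∧ (Y'.submoduleOf X').mkQ (g' x) = 0 := by
      constructor
      · intro h
        exact ⟨congrArg Prod.fst h, congrArg Prod.snd h⟩
      · rintro ⟨ha, hb⟩
        exact Prod.ext ha hb
    rw [hfx, hYq, hYq']
    rfl

theorem fgp_of_split {M : Type} [AddCommGroup M] [Module T M] (X : Submodule T M)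
    (hf : Module.Finite T X) (hq : Module.Projective T (M ⧸ X)) (hM : Module.Projective T M) :
    FGP T X := by
  refine ⟨hf, ?_⟩
  obtain ⟨s, hs⟩ := rel_exists_section X hq
  have hmem : ∀ m : M, m - s (X.mkQ m) ∈ X := by
    intro m
    have h3 : X.mkQ (m - s (X.mkQ m)) = 0 := by
      rw [map_sub, hs, sub_self]
    rw [Submodule.mkQ_apply, Submodule.Quotient.mk_eq_zero] at h3
    exact h3
  let g : M →ₗ[T] X := LinearMap.codRestrict X (LinearMap.id - s ∘ₗ X.mkQ) hmem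
  refine Module.Projective.of_split X.subtype g ?_
  ext x
  have h0 : X.mkQ (x : M) = 0 := by
    rw [Submodule.mkQ_apply, Submodule.Quotient.mk_eq_zero]
    exact x.2
  show (x : M) - s (X.mkQ (x : M)) = x
  rw [h0, map_zero, sub_zero]

end Rel

end Pool.Agent.Ind
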